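import Mathlib

open Set Finset

namespace Pool.Agent.Helper59.CurT


section Kap

variable {E : Type*} [AddCommGroup E] [Module ℝ E]

/-- `f` is affine along segments. -/
def Aff (f : E → ℝ) : Prop :=
  ∀ (x y : E) (s t : ℝ), s + t = 1 → f (s • x + t • y) = s * f x + t * f y

/-- the two by two determinant of `(a, h)` at `x` and `y` -/
def det2 (a h : E → ℝ) (x y : E) : ℝ := a x * h y - a y * h x

/-- signed number of crossings of the segment `x y` with the half-flat `h = 0, a > 0` -/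
noncomputable def kap (a h : E → ℝ) (x y : E) : ℤ :=
  if h x < 0 ∧ 0 ≤ h y ∧ 0 < det2 a h x y then 1
  else if h y < 0 ∧ 0 ≤ h x ∧ det2 a h x y < 0 then -1 else 0

lemma det2_swap (a h : E → ℝ) (x y : E) : det2 a h y x = - det2 a h x y := by
  unfold det2; ring

/-- crossing point -/
lemma exists_cross {a h : E → ℝ} (ha : Aff a) (hh : Aff h) {C : Set E} (hC : Convex ℝ C)
    {x y : E} (hx : x ∈ C) (hy : y ∈ C) (h1 : h x < 0) (h2 : 0 ≤ h y) :
    ∃ q ∈ C, h q = 0 ∧ a q * (h y - h x) = det2 a h x y := by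
  have hpos : 0 < h y - h x := by linarith
  have hs : h y / (h y - h x) + (- h x) / (h y - h x) = 1 := by
    field_simp; ring
  refine ⟨(h y / (h y - h x)) • x + ((- h x) / (h y - h x)) • y, ?_, ?_, ?_⟩
  · exact hC hx hy (div_nonneg h2 hpos.le) (div_nonneg (by linarith) hpos.le) hs
  · rw [hh x y _ _ hs]; field_simp; ring
  · rw [ha x y _ _ hs]; unfold det2; field_simp; ring

lemma exists_chi {a h : E → ℝ} (ha : Aff a) (hh : Aff h) {C : Set E} (hC : Convex ℝ C)
    (h0 : ∀ x ∈ C, ¬ (a x = 0 ∧ h x = 0)) :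
    ∃ χ : ℤ, ∀ x ∈ C, ∀ y ∈ C,
      kap a h x y = χ * ((if 0 ≤ h y then 1 else 0) - (if 0 ≤ h x then 1 else 0)) := by
  by_cases H : ∃ p ∈ C, h p = 0 ∧ 0 < a p
  · obtain ⟨p, hp, hp0, hpa⟩ := H
    -- any zero of h in C has a > 0
    have key : ∀ q ∈ C, h q = 0 → 0 < a q := by
      intro q hq hq0
      by_contra hneg
      push Not at hneg
      have hlt : 0 < a p - a q := by linarith
      have hs : (- a q) / (a p - a q) + a p / (a p - a q) = 1 := by
        field_simp; ring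
      have hm : ((- a q) / (a p - a q)) • p + (a p / (a p - a q)) • q ∈ C :=
        hC hp hq (div_nonneg (by linarith) hlt.le) (div_nonneg hpa.le hlt.le) hs
      apply h0 _ hm
      rw [ha _ _ _ _ hs, hh _ _ _ _ hs, hp0, hq0]
      constructor
      · field_simp; ring
      · ring
    refine ⟨1, fun x hx y hy => ?_⟩
    rcases lt_or_ge (h x) 0 with hx0 | hx0
    · rcases lt_or_ge (h y) 0 with hy0 | hy0
      · unfold kap
        rw [if_neg (by intro h; linarith [h.2.1]), if_neg (by intro h; linarith [h.2.1]),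
          if_neg (by linarith), if_neg (by linarith)]
        simp
      · obtain ⟨q, hq, hq0, hqd⟩ := exists_cross ha hh hC hx hy hx0 hy0
        have h1 := key q hq hq0
        have h2 : 0 < det2 a h x y := by
          rw [← hqd]; exact mul_pos h1 (by linarith)
        unfold kap
        rw [if_pos ⟨hx0, hy0, h2⟩, if_pos hy0, if_neg (by linarith)]
        simp
    · rcases lt_or_ge (h y) 0 with hy0 | hy0
      · obtain ⟨q, hq, hq0, hqd⟩ := exists_cross ha hh hC hy hx hy0 hx0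
        have h1 := key q hq hq0
        have h2 : 0 < det2 a h y x := by
          rw [← hqd]; exact mul_pos h1 (by linarith)
        rw [det2_swap] at h2
        unfold kap
        rw [if_neg (by intro h; linarith [h.1]), if_pos ⟨hy0, hx0, by linarith⟩,
          if_neg (by linarith), if_pos hx0]
        simp
      · unfold kap
        rw [if_neg (by intro h; linarith [h.1]), if_neg (by intro h; linarith [h.1]),
          if_pos hy0, if_pos hx0]
        simp
  · push Not at H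
    refine ⟨0, fun x hx y hy => ?_⟩
    rw [zero_mul]
    unfold kap
    rw [if_neg, if_neg]
    · rintro ⟨hy0, hx0, hd⟩
      obtain ⟨q, hq, hq0, hqd⟩ := exists_cross ha hh hC hy hx hy0 hx0
      have := H q hq hq0
      rw [det2_swap] at hqd
      nlinarith
    · rintro ⟨hx0, hy0, hd⟩
      obtain ⟨q, hq, hq0, hqd⟩ := exists_cross ha hh hC hx hy hx0 hy0
      have := H q hq hq0
      nlinarith

/-- `kap` is additive on `C` -/
def Add (a h : E → ℝ) (C : Set E) : Prop :=
  ∀ x ∈ C, ∀ y ∈ C, ∀ z ∈ C, kap a h x y + kap a h y z = kap a h x z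

lemma add_of_convex {a h : E → ℝ} (ha : Aff a) (hh : Aff h) {C : Set E} (hC : Convex ℝ C)
    (h0 : ∀ x ∈ C, ¬ (a x = 0 ∧ h x = 0)) : Add a h C := by
  obtain ⟨χ, hχ⟩ := exists_chi ha hh hC h0
  intro x hx y hy z hz
  rw [hχ x hx y hy, hχ y hy z hz, hχ x hx z hz]
  ring

lemma kap_self (a h : E → ℝ) (x : E) : kap a h x x = 0 := by
  unfold kap
  rw [if_neg (by intro h; linarith [h.1, h.2.1]), if_neg (by intro h; linarith [h.1, h.2.1])]

lemma kap_swap (a h : E → ℝ) (x y : E) : kap a h y x = - kap a h x y := by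
  unfold kap
  rw [det2_swap]
  by_cases h1 : h x < 0 ∧ 0 ≤ h y ∧ 0 < det2 a h x y
  · rw [if_pos h1, if_neg (by intro h; linarith [h.1, h1.2.1]),
      if_pos ⟨h1.1, h1.2.1, by linarith [h1.2.2]⟩]
  · rw [if_neg h1]
    by_cases h2 : h y < 0 ∧ 0 ≤ h x ∧ det2 a h x y < 0
    · rw [if_pos h2, if_pos ⟨h2.1, h2.2.1, by linarith [h2.2.2]⟩]; simp
    · rw [if_neg h2, if_neg (by intro h; exact h2 ⟨h.1, h.2.1, by linarith [h.2.2]⟩), if_neg
        (by intro h; exact h1 ⟨h.1, h.2.1, by linarith [h.2.2]⟩)]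
      simp

end Kap



/-- growth: binomial sums lose against `2 ^ k` -/
lemma exists_large (D : ℕ) : ∃ k : ℕ, ∑ s ∈ Finset.Iic D, (8 * (k + 1)).choose s < 2 ^ k := by
  have h1 := tendsto_pow_const_div_const_pow_of_one_lt D (r := (2:ℝ)) (by norm_num)
  have hpos : (0:ℝ) < 1 / (2 * ((D + 1 : ℕ) : ℝ) * 8 ^ D) := by positivity
  have h2 := (h1.comp (Filter.tendsto_add_atTop_nat 1)).eventually (gt_mem_nhds hpos)
  obtain ⟨k, hk⟩ := h2.exists
  refine ⟨k, ?_⟩
  have h3 : ∑ s ∈ Finset.Iic D, (8 * (k + 1)).choose s ≤ (D + 1) * (8 * (k + 1)) ^ D := by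
    calc ∑ s ∈ Finset.Iic D, (8 * (k + 1)).choose s
        ≤ ∑ s ∈ Finset.Iic D, (8 * (k + 1)) ^ D := by
          apply Finset.sum_le_sum
          intro s hs
          have hs' : s ≤ D := by simpa using hs
          exact (Nat.choose_le_pow _ _).trans (Nat.pow_le_pow_right (by omega) hs')
      _ = (D + 1) * (8 * (k + 1)) ^ D := by
          rw [Finset.sum_const, Nat.card_Iic, smul_eq_mul]
  refine lt_of_le_of_lt h3 ?_
  have h4 : ((D + 1 : ℕ) : ℝ) * (8 * ((k + 1 : ℕ) : ℝ)) ^ D < 2 ^ k := by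
    simp only [Function.comp] at hk
    have h2k : (0:ℝ) < 2 ^ (k + 1) := by positivity
    rw [div_lt_iff₀ h2k, one_div, inv_mul_eq_div, lt_div_iff₀ (by positivity)] at hk
    rw [mul_pow]
    have : (2:ℝ) ^ (k + 1) = 2 * 2 ^ k := by ring
    rw [this] at hk
    nlinarith
  exact_mod_cast h4

/-- A family of subsets of `Q` cut out by a linear space of dimension `D` has VC dimension at
most `D`. -/
lemma vcDim_le {Q : Type*} [Fintype Q] [DecidableEq Q] {Par : Type*} [AddCommGroup Par]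
    [Module ℝ Par] [FiniteDimensional ℝ Par] (L : Par →ₗ[ℝ] (Q → ℝ)) (A : Finset (Finset Q))
    (hA : ∀ S ∈ A, ∃ p, ∀ q, q ∈ S ↔ 0 < L p q) : A.vcDim ≤ Module.finrank ℝ Par := by
  unfold Finset.vcDim
  apply Finset.sup_le
  intro T hT
  rw [Finset.mem_shatterer] at hT
  by_contra hlt
  push Not at hlt
  -- restrict to T
  let R : (Q → ℝ) →ₗ[ℝ] (T → ℝ) := LinearMap.funLeft ℝ ℝ (fun t : T => (t : Q))
  have hrange : LinearMap.range (R ∘ₗ L) < ⊤ := by
    apply Submodule.lt_top_of_finrank_lt_finrank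
    calc Module.finrank ℝ (LinearMap.range (R ∘ₗ L)) ≤ Module.finrank ℝ Par :=
          LinearMap.finrank_range_le _
      _ < T.card := hlt
      _ = Module.finrank ℝ (T → ℝ) := by simp
  obtain ⟨f, hf0, hf⟩ := Submodule.exists_le_ker_of_lt_top _ hrange
  -- a linear dependency `c`
  have hdep : ∃ c : T → ℝ, (∀ p, ∑ t : T, L p t * c t = 0) ∧ c ≠ 0 := by
    refine ⟨fun t => f (fun j => if t = j then 1 else 0), ?_, ?_⟩
    · intro p
      have hz : f (R (L p)) = 0 := by
        have : R (L p) ∈ LinearMap.range (R ∘ₗ L) := ⟨p, rfl⟩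
        exact hf this
      rw [LinearMap.pi_apply_eq_sum_univ f] at hz
      simpa [smul_eq_mul, R] using hz
    · intro hc
      apply hf0
      refine LinearMap.ext fun g => ?_
      rw [LinearMap.pi_apply_eq_sum_univ f]
      simp only [LinearMap.zero_apply]
      apply Finset.sum_eq_zero
      intro t _
      rw [show f (fun j => if t = j then 1 else 0) = 0 from congrFun hc t, smul_zero]
  -- contradiction as soon as some coefficient is positive
  have main : ∀ c : T → ℝ, (∀ p, ∑ t : T, L p t * c t = 0) → (∃ t, 0 < c t) → False := by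
    intro c hz ⟨t0, ht0⟩
    let Tp : Finset Q := (Finset.univ.filter (fun t : T => 0 < c t)).map
      (Function.Embedding.subtype _)
    have hTp : Tp ⊆ T := by
      intro q hq
      simp only [Tp, Finset.mem_map, Finset.mem_filter, Finset.mem_univ, true_and,
        Function.Embedding.coe_subtype] at hq
      obtain ⟨t, _, rfl⟩ := hq
      exact t.2
    obtain ⟨S, hS, hST⟩ := hT hTp
    obtain ⟨p, hp⟩ := hA S hS
    have h1 := hz p
    have hmem : ∀ t : T, 0 < c t ↔ 0 < L p t := by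
      intro t
      rw [← hp]
      have h2 : (t : Q) ∈ T ∩ S ↔ (t : Q) ∈ Tp := by rw [hST]
      simp only [Finset.mem_inter, Tp, Finset.mem_map, Finset.mem_filter, Finset.mem_univ,
        true_and, Function.Embedding.coe_subtype] at h2
      constructor
      · intro h
        exact (h2.2 ⟨t, h, rfl⟩).2
      · intro h
        obtain ⟨t', ht', hte⟩ := h2.1 ⟨t.2, h⟩
        have : t' = t := Subtype.ext hte
        rwa [this] at ht'
    have hpos : 0 < ∑ t : T, L p t * c t := by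
      apply Finset.sum_pos'
      · intro t _
        rcases lt_or_ge 0 (c t) with h | h
        · exact (mul_pos ((hmem t).1 h) h).le
        · have h3 : ¬ 0 < L p t := fun h' => absurd ((hmem t).2 h') (not_lt.2 h)
          push Not at h3
          exact mul_nonneg_of_nonpos_of_nonpos h3 h
      · exact ⟨t0, Finset.mem_univ _, mul_pos ((hmem t0).1 ht0) ht0⟩
    linarith
  obtain ⟨c, hc, hc0⟩ := hdep
  by_cases hpos : ∃ t, 0 < c t
  · exact main c hc hpos
  · push Not at hpos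
    refine main (fun t => - c t) ?_ ?_
    · intro p
      simp only [mul_neg, Finset.sum_neg_distrib, hc p, neg_zero]
    · by_contra hcon
      push Not at hcon
      apply hc0
      funext t
      have h1 := hpos t
      have h2 := hcon t
      simp only [Pi.zero_apply]
      linarith



/-- Labels of the sets of the arrangement. -/
inductive Vtx (k r w : ℕ) : Type
  | rod (j : Fin (k + 1))
  | neut (a : Fin (r + 1))
  | cM (i : Fin r)
  | side (b : Bool) (i : Fin r)
  | pad (s : Fin w)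
  deriving DecidableEq, Fintype

open Vtx

/-- The incidence facts about the arrangement that are used for the lower bound. -/
structure Facts {E : Type*} {k r w : ℕ} (P : Fin r → Fin (k + 1) → Bool)
    (W : Vtx k r w → Set E) : Prop where
  link : ∀ i v, (W v ∩ W (cM i)).Nonempty →
    v = cM i ∨ (∃ b, v = side b i) ∨ v = neut i.castSucc ∨ v = neut i.succ
  AB : ∀ i, Disjoint (W (side true i)) (W (side false i))
  NN : ∀ i : Fin r, Disjoint (W (neut i.castSucc)) (W (neut i.succ))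
  mid0 : ∀ i b, (W (cM i) ∩ W (side b i) ∩ W (neut i.castSucc)).Nonempty
  mid1 : ∀ i b, (W (cM i) ∩ W (side b i) ∩ W (neut i.succ)).Nonempty
  rod0 : ∀ i j, (W (rod j) ∩ W (side (P i j) i) ∩ W (neut i.castSucc)).Nonempty
  rod1 : ∀ i j, (W (rod j) ∩ W (side (P i j) i) ∩ W (neut i.succ)).Nonempty

section Wind

variable {E : Type*} [AddCommGroup E] [Module ℝ E] {k r w : ℕ}
  {P : Fin r → Fin (k + 1) → Bool} {W : Vtx k r w → Set E}

/-- all sets except `M i` miss the flat `a = h = 0` -/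
def Avoids (W : Vtx k r w → Set E) (i : Fin r) (a h : E → ℝ) : Prop :=
  ∀ v, v ≠ cM i → ∀ x ∈ W v, ¬ (a x = 0 ∧ h x = 0)

/-- sign conditions at bead `i` -/
structure Signs (W : Vtx k r w → Set E) (i : Fin r) (a h : E → ℝ) : Prop where
  aff_a : Aff a
  aff_h : Aff h
  posA : ∀ x ∈ W (side true i), 0 < a x
  negB : ∀ x ∈ W (side false i), a x < 0
  negN : ∀ x ∈ W (neut i.castSucc), h x < 0
  posN : ∀ x ∈ W (neut i.succ), 0 < h x

lemma convex_zero {a : E → ℝ} (ha : Aff a) : Convex ℝ {x | a x = 0} := by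
  intro x hx y hy s t _ _ hst
  simp only [Set.mem_ofPred_eq] at hx hy ⊢
  rw [ha x y s t hst, hx, hy]; ring

/-- zero of an affine function on a convex set taking both signs -/
lemma exists_zero {a : E → ℝ} (ha : Aff a) {C : Set E} (hC : Convex ℝ C) {x y : E}
    (hx : x ∈ C) (hy : y ∈ C) (h1 : 0 < a x) (h2 : a y < 0) : ∃ q ∈ C, a q = 0 := by
  have hlt : 0 < a x - a y := by linarith
  have hs : (- a y) / (a x - a y) + a x / (a x - a y) = 1 := by
    field_simp; ring
  refine ⟨((- a y) / (a x - a y)) • x + (a x / (a x - a y)) • y,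
    hC hx hy (div_nonneg (by linarith) hlt.le) (div_nonneg h1.le hlt.le) hs, ?_⟩
  rw [ha _ _ _ _ hs]
  field_simp; ring

lemma avoids_of_signs [TopologicalSpace E] [IsTopologicalAddGroup E] [ContinuousSMul ℝ E]
    (F : Facts P W) (hopen : ∀ v, IsOpen (W v)) (hconv : ∀ v, Convex ℝ (W v))
    (hU : Convex ℝ (⋃ v, W v)) {i : Fin r} {a h : E → ℝ} (S : Signs W i a h) :
    Avoids W i a h := by
  have hN : ∀ x, x ∈ W (side true i) ∨ x ∈ W (side false i) ∨ x ∈ W (neut i.castSucc) ∨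
      x ∈ W (neut i.succ) → ¬ (a x = 0 ∧ h x = 0) := by
    rintro x (hx | hx | hx | hx) ⟨h1, h2⟩
    · linarith [S.posA x hx]
    · linarith [S.negB x hx]
    · linarith [S.negN x hx]
    · linarith [S.posN x hx]
  -- a point of `M` on the flat
  have hz : ∃ z ∈ W (cM i), a z = 0 ∧ h z = 0 := by
    obtain ⟨p1, ⟨hp1M, hp1A⟩, hp1N⟩ := F.mid0 i true
    obtain ⟨p2, ⟨hp2M, hp2B⟩, hp2N⟩ := F.mid0 i false
    obtain ⟨p3, ⟨hp3M, hp3A⟩, hp3N⟩ := F.mid1 i true
    obtain ⟨p4, ⟨hp4M, hp4B⟩, hp4N⟩ := F.mid1 i false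
    obtain ⟨n, hn, hna⟩ := exists_zero S.aff_a ((hconv (cM i)).inter (hconv (neut i.castSucc)))
      ⟨hp1M, hp1N⟩ ⟨hp2M, hp2N⟩ (S.posA _ hp1A) (S.negB _ hp2B)
    obtain ⟨n', hn', hna'⟩ := exists_zero S.aff_a ((hconv (cM i)).inter (hconv (neut i.succ)))
      ⟨hp3M, hp3N⟩ ⟨hp4M, hp4N⟩ (S.posA _ hp3A) (S.negB _ hp4B)
    obtain ⟨z, hz, hz0⟩ := exists_zero S.aff_h ((hconv (cM i)).inter (convex_zero S.aff_a))
      (x := n') (y := n) ⟨hn'.1, hna'⟩ ⟨hn.1, hna⟩ (S.posN _ hn'.2) (S.negN _ hn.2)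
    exact ⟨z, hz.1, hz.2, hz0⟩
  obtain ⟨z, hzM, hza, hzh⟩ := hz
  intro v hv x hx hx0
  have hpre : IsPreconnected ((⋃ v, W v) ∩ {x | a x = 0} ∩ {x | h x = 0}) :=
    ((hU.inter (convex_zero S.aff_a)).inter (convex_zero S.aff_h)).isPreconnected
  obtain ⟨y, ⟨⟨_, hya⟩, hyh⟩, hyM, hyO⟩ := hpre (W (cM i)) (⋃ v : {v // v ≠ cM i}, W v)
    (hopen _) (isOpen_iUnion fun v => hopen _)
    (by
      rintro y ⟨⟨hy, _⟩, _⟩
      obtain ⟨u, hu⟩ := Set.mem_iUnion.1 hy
      by_cases huM : u = cM i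
      · left; rw [← huM]; exact hu
      · right; exact Set.mem_iUnion.2 ⟨⟨u, huM⟩, hu⟩)
    ⟨z, ⟨⟨Set.mem_iUnion.2 ⟨_, hzM⟩, hza⟩, hzh⟩, hzM⟩
    ⟨x, ⟨⟨Set.mem_iUnion.2 ⟨_, hx⟩, hx0.1⟩, hx0.2⟩, Set.mem_iUnion.2 ⟨⟨v, hv⟩, hx⟩⟩
  obtain ⟨⟨u, hu⟩, hyu⟩ := Set.mem_iUnion.1 hyO
  simp only at hyu
  rcases F.link i u ⟨y, hyu, hyM⟩ with h1 | ⟨b, h1⟩ | h1 | h1
  · exact hu h1
  · subst h1
    cases b
    · exact hN y (Or.inr (Or.inl hyu)) ⟨hya, hyh⟩
    · exact hN y (Or.inl hyu) ⟨hya, hyh⟩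
  · subst h1
    exact hN y (Or.inr (Or.inr (Or.inl hyu))) ⟨hya, hyh⟩
  · subst h1
    exact hN y (Or.inr (Or.inr (Or.inr hyu))) ⟨hya, hyh⟩

/-- The basic loop around one bead. -/
lemma loop_step (hconv : ∀ v, Convex ℝ (W v)) (F : Facts P W) (hP : ∀ i, P i 0 = true)
    {i : Fin r} {a h : E → ℝ} (S : Signs W i a h) (hav : Avoids W i a h)
    (l : Fin r) (j : Fin (k + 1)) {y0 y1 z0 z1 : E}
    (hy0 : y0 ∈ W (rod j)) (hy0' : y0 ∈ W (neut l.castSucc))
    (hy1 : y1 ∈ W (rod j)) (hy1' : y1 ∈ W (neut l.succ))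
    (hz0 : z0 ∈ W (rod 0)) (hz0' : z0 ∈ W (neut l.castSucc))
    (hz1 : z1 ∈ W (rod 0)) (hz1' : z1 ∈ W (neut l.succ)) :
    kap a h y0 y1 + kap a h y1 z1 + kap a h z1 z0 + kap a h z0 y0 =
      if l = i ∧ P i j = false then -1 else 0 := by
  have hadd : ∀ v, v ≠ cM i → Add a h (W v) := fun v hv =>
    add_of_convex S.aff_a S.aff_h (hconv v) (hav v hv)
  have hrj := hadd (rod j) (by simp)
  have hr0 := hadd (rod 0) (by simp)
  have hn0 := hadd (neut l.castSucc) (by simp)
  have hn1 := hadd (neut l.succ) (by simp)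
  have hA := hadd (side true l) (by simp)
  have hB := hadd (side false l) (by simp)
  obtain ⟨x0, ⟨hx0r, hx0s⟩, hx0n⟩ := F.rod0 l j
  obtain ⟨x1, ⟨hx1r, hx1s⟩, hx1n⟩ := F.rod1 l j
  obtain ⟨u0, ⟨hu0r, hu0s⟩, hu0n⟩ := F.rod0 l 0
  obtain ⟨u1, ⟨hu1r, hu1s⟩, hu1n⟩ := F.rod1 l 0
  rw [hP] at hu0s hu1s
  have e1 := hrj y0 hy0 x0 hx0r x1 hx1r
  have e2 := hrj y0 hy0 x1 hx1r y1 hy1
  have e3 := hn1 y1 hy1' x1 hx1n u1 hu1n
  have e4 := hn1 y1 hy1' u1 hu1n z1 hz1'
  have e5 := hr0 z1 hz1 u1 hu1r u0 hu0r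
  have e6 := hr0 z1 hz1 u0 hu0r z0 hz0
  have e7 := hn0 z0 hz0' u0 hu0n x0 hx0n
  have e8 := hn0 z0 hz0' x0 hx0n y0 hy0'
  have s1 := kap_swap a h x1 y1
  have s2 := kap_swap a h u1 z1
  have s3 := kap_swap a h u0 z0
  have s4 := kap_swap a h y0 x0
  have hsum : kap a h y0 y1 + kap a h y1 z1 + kap a h z1 z0 + kap a h z0 y0 =
      kap a h x0 x1 + kap a h x1 u1 + kap a h u1 u0 + kap a h u0 x0 := by
    linarith
  rw [hsum]
  cases hPj : P l j with
  | true =>
    rw [hPj] at hx0s hx1s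
    have f1 := hA x0 hx0s x1 hx1s u1 hu1s
    have f2 := hA x0 hx0s u1 hu1s u0 hu0s
    have f3 := hA x0 hx0s u0 hu0s x0 hx0s
    have f4 := kap_self a h x0
    rw [if_neg]
    · linarith
    · rintro ⟨h1, h2⟩
      rw [← h1, hPj] at h2
      exact Bool.noConfusion h2
  | false =>
    rw [hPj] at hx0s hx1s
    obtain ⟨m1, ⟨hm1M, hm1s⟩, hm1n⟩ := F.mid0 l true
    obtain ⟨m2, ⟨hm2M, hm2s⟩, hm2n⟩ := F.mid1 l true
    obtain ⟨m3, ⟨hm3M, hm3s⟩, hm3n⟩ := F.mid1 l false
    obtain ⟨m4, ⟨hm4M, hm4s⟩, hm4n⟩ := F.mid0 l false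
    have f1 := hB x0 hx0s m4 hm4s m3 hm3s
    have f2 := hB x0 hx0s m3 hm3s x1 hx1s
    have f3 := hn1 x1 hx1n m3 hm3n m2 hm2n
    have f4 := hn1 x1 hx1n m2 hm2n u1 hu1n
    have f5 := hA u1 hu1s m2 hm2s m1 hm1s
    have f6 := hA u1 hu1s m1 hm1s u0 hu0s
    have f7 := hn0 u0 hu0n m1 hm1n m4 hm4n
    have f8 := hn0 u0 hu0n m4 hm4n x0 hx0n
    have t1 := kap_swap a h x0 m4
    have t2 := kap_swap a h m3 x1
    have t3 := kap_swap a h m2 u1
    have t4 := kap_swap a h m1 u0
    have hsum2 : kap a h x0 x1 + kap a h x1 u1 + kap a h u1 u0 + kap a h u0 x0 =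
        kap a h m4 m3 + kap a h m3 m2 + kap a h m2 m1 + kap a h m1 m4 := by
      linarith
    rw [hsum2]
    by_cases hli : l = i
    · subst hli
      rw [if_pos ⟨rfl, hPj⟩]
      have a1 := S.posA m1 hm1s
      have a2 := S.posA m2 hm2s
      have a3 := S.negB m3 hm3s
      have a4 := S.negB m4 hm4s
      have b1 := S.negN m1 hm1n
      have b2 := S.posN m2 hm2n
      have b3 := S.posN m3 hm3n
      have b4 := S.negN m4 hm4n
      have k1 : kap a h m4 m3 = 0 := by
        unfold kap det2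
        rw [if_neg, if_neg]
        · rintro ⟨q1, q2, q3⟩; linarith
        · rintro ⟨q1, q2, q3⟩; nlinarith
      have k2 : kap a h m3 m2 = 0 := by
        unfold kap det2
        rw [if_neg, if_neg]
        · rintro ⟨q1, q2, q3⟩; linarith
        · rintro ⟨q1, q2, q3⟩; linarith
      have k3 : kap a h m2 m1 = -1 := by
        unfold kap det2
        rw [if_neg, if_pos]
        · refine ⟨b1, b2.le, by nlinarith⟩
        · rintro ⟨q1, q2, q3⟩; linarith
      have k4 : kap a h m1 m4 = 0 := by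
        unfold kap det2
        rw [if_neg, if_neg]
        · rintro ⟨q1, q2, q3⟩; linarith
        · rintro ⟨q1, q2, q3⟩; linarith
      rw [k1, k2, k3, k4]; ring
    · have hM := hadd (cM l) (by simpa using hli)
      have g1 := hM m4 hm4M m3 hm3M m2 hm2M
      have g2 := hM m4 hm4M m2 hm2M m1 hm1M
      have g3 := hM m4 hm4M m1 hm1M m4 hm4M
      have g4 := kap_self a h m4
      rw [if_neg (fun hh => hli hh.1)]
      linarith

/-- The loop around the whole arrangement reads off the pattern of bead `i`. -/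
lemma loop_total (hconv : ∀ v, Convex ℝ (W v)) (F : Facts P W) (hP : ∀ i, P i 0 = true)
    {i : Fin r} {a h : E → ℝ} (S : Signs W i a h) (hav : Avoids W i a h)
    (y : Fin (k + 1) → Fin (r + 1) → E)
    (hy : ∀ j l, y j l ∈ W (rod j)) (hy' : ∀ j l, y j l ∈ W (neut l)) (j : Fin (k + 1)) :
    kap a h (y 0 0) (y j 0) + kap a h (y j 0) (y j (Fin.last r)) +
      kap a h (y j (Fin.last r)) (y 0 (Fin.last r)) + kap a h (y 0 (Fin.last r)) (y 0 0) =
      if P i j = false then -1 else 0 := by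
  have hadd : ∀ v, v ≠ cM i → Add a h (W v) := fun v hv =>
    add_of_convex S.aff_a S.aff_h (hconv v) (hav v hv)
  have hrj := hadd (rod j) (by simp)
  have hr0 := hadd (rod 0) (by simp)
  have main : ∀ l : Fin (r + 1), kap a h (y 0 0) (y j 0) + kap a h (y j 0) (y j l) +
      kap a h (y j l) (y 0 l) + kap a h (y 0 l) (y 0 0) =
      if i.castSucc < l ∧ P i j = false then -1 else 0 := by
    intro l
    induction l using Fin.induction with
    | zero =>
      rw [if_neg (by rintro ⟨h1, _⟩; exact absurd h1 (Fin.not_lt_zero _))]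
      have s1 := kap_swap a h (y 0 0) (y j 0)
      have s2 := kap_self a h (y j 0)
      have s3 := kap_self a h (y 0 0)
      linarith
    | succ l ih =>
      have st := loop_step hconv F hP S hav l j (hy j l.castSucc) (hy' j l.castSucc)
        (hy j l.succ) (hy' j l.succ) (hy 0 l.castSucc) (hy' 0 l.castSucc)
        (hy 0 l.succ) (hy' 0 l.succ)
      have e1 := hrj _ (hy j 0) _ (hy j l.castSucc) _ (hy j l.succ)
      have e2 := hr0 _ (hy 0 l.succ) _ (hy 0 l.castSucc) _ (hy 0 0)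
      have s1 := kap_swap a h (y j l.castSucc) (y 0 l.castSucc)
      have hsum : kap a h (y 0 0) (y j 0) + kap a h (y j 0) (y j l.succ) +
        kap a h (y j l.succ) (y 0 l.succ) + kap a h (y 0 l.succ) (y 0 0) =
        (if i.castSucc < l.castSucc ∧ P i j = false then -1 else 0) +
        (if l = i ∧ P i j = false then -1 else 0) := by
        rw [← ih, ← st]
        linarith
      rw [hsum]
      by_cases hb : P i j = false
      · simp only [hb, and_true]
        rcases lt_trichotomy i l with hlt | heq | hgt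
        · rw [if_pos (by simpa using hlt), if_neg (by omega), if_pos]
          · ring
          · rw [Fin.castSucc_lt_succ_iff]; exact hlt.le
        · subst heq
          rw [if_neg (lt_irrefl _), if_pos rfl, if_pos]
          · ring
          · exact Fin.castSucc_lt_succ
        · rw [if_neg (by simpa using hgt.le), if_neg (by omega), if_neg]
          · ring
          · rw [Fin.castSucc_lt_succ_iff]; exact not_le.2 hgt
      · simp [hb]
  have hl := main (Fin.last r)
  rw [hl]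
  have : i.castSucc < Fin.last r := Fin.castSucc_lt_last i
  simp [this]

end Wind


end Pool.Agent.Helper59.CurT
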