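import Pool.Agent.Helper59.CurBase

open Set Finset

namespace Pool.Agent.Helper59.CurT

open Vtx

section Lower

/-- homogeneous coordinates -/
def hat {m : ℕ} (x : Fin m → ℝ) : Option (Fin m) → ℝ := fun c => c.elim 1 x

/-- the affine function with coefficient vector `β` -/
def lin {m : ℕ} (β : Option (Fin m) → ℝ) (x : Fin m → ℝ) : ℝ := ∑ c, β c * hat x c

lemma lin_aff {m : ℕ} (β : Option (Fin m) → ℝ) : Aff (lin β) := by
  intro x y s t hst
  unfold lin
  rw [Finset.mul_sum, Finset.mul_sum, ← Finset.sum_add_distrib]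
  apply Finset.sum_congr rfl
  intro c _
  cases c with
  | none => simp only [hat, Option.elim]; linear_combination (- β none) * hst
  | some c => simp only [hat, Option.elim, Pi.add_apply, Pi.smul_apply, smul_eq_mul]; ring

/-- every continuous affine function has coefficients -/
lemma exists_lin {m : ℕ} (f : StrongDual ℝ (Fin m → ℝ)) (u : ℝ) :
    ∃ β : Option (Fin m) → ℝ, ∀ x, lin β x = f x - u := by
  refine ⟨fun c => c.elim (-u) (fun i => f (fun j => if i = j then 1 else 0)), fun x => ?_⟩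
  unfold lin
  rw [Fintype.sum_option]
  have := LinearMap.pi_apply_eq_sum_univ (f : (Fin m → ℝ) →ₗ[ℝ] ℝ) x
  simp only [ContinuousLinearMap.coe_coe] at this
  rw [this]
  simp only [hat, Option.elim, smul_eq_mul, mul_one]
  rw [sub_eq_neg_add]
  congr 1
  apply Finset.sum_congr rfl
  intro c _
  ring

/-- separation by an affine function given by coefficients -/
lemma exists_sep {m : ℕ} {A B : Set (Fin m → ℝ)} (hA : Convex ℝ A) (hA' : IsOpen A)
    (hB : Convex ℝ B) (hB' : IsOpen B) (hd : Disjoint A B) :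
    ∃ β : Option (Fin m) → ℝ, (∀ x ∈ A, lin β x < 0) ∧ ∀ x ∈ B, 0 < lin β x := by
  obtain ⟨f, u, h1, h2⟩ := geometric_hahn_banach_open_open hA hA' hB hB' hd
  obtain ⟨β, hβ⟩ := exists_lin f u
  refine ⟨β, fun x hx => ?_, fun x hx => ?_⟩
  · rw [hβ]; linarith [h1 x hx]
  · rw [hβ]; linarith [h2 x hx]

/-- parameter space -/
abbrev Par (m : ℕ) : Type := (Option (Fin m) → ℝ) × (Option (Fin m) × Option (Fin m) → ℝ)

/-- evaluation of the first component at a point -/
noncomputable def ev1 {m : ℕ} (x : Fin m → ℝ) : Par m →ₗ[ℝ] ℝ where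
  toFun p := ∑ c, p.1 c * hat x c
  map_add' p q := by
    rw [← Finset.sum_add_distrib]; apply Finset.sum_congr rfl; intro c _
    simp only [Prod.fst_add, Pi.add_apply]; ring
  map_smul' s p := by
    simp only [Prod.smul_fst, Pi.smul_apply, smul_eq_mul, RingHom.id_apply]
    rw [Finset.mul_sum]; apply Finset.sum_congr rfl; intro c _; ring

/-- evaluation of the second component at a pair of points -/
noncomputable def ev2 {m : ℕ} (x y : Fin m → ℝ) : Par m →ₗ[ℝ] ℝ where
  toFun p := ∑ c, p.2 c * (hat x c.1 * hat y c.2)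
  map_add' p q := by
    rw [← Finset.sum_add_distrib]; apply Finset.sum_congr rfl; intro c _
    simp only [Prod.snd_add, Pi.add_apply]; ring
  map_smul' s p := by
    simp only [Prod.smul_snd, Pi.smul_apply, smul_eq_mul, RingHom.id_apply]
    rw [Finset.mul_sum]; apply Finset.sum_congr rfl; intro c _; ring

/-- the parameter of a pair of affine functions -/
def parOf {m : ℕ} (α β : Option (Fin m) → ℝ) : Par m :=
  (β, fun c => α c.1 * β c.2 - α c.2 * β c.1)

lemma ev1_parOf {m : ℕ} (α β : Option (Fin m) → ℝ) (x : Fin m → ℝ) :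
    ev1 x (parOf α β) = lin β x := rfl

lemma ev2_parOf {m : ℕ} (α β : Option (Fin m) → ℝ) (x y : Fin m → ℝ) :
    ev2 x y (parOf α β) = det2 (lin α) (lin β) x y := by
  unfold det2 lin
  simp only [ev2, parOf, LinearMap.coe_mk, AddHom.coe_mk]
  rw [Fintype.sum_prod_type]
  rw [Finset.sum_mul_sum, Finset.sum_mul_sum, Finset.sum_comm (s := univ) (t := univ)
    (f := fun i j => α i * hat y i * (β j * hat x j)), ← Finset.sum_sub_distrib]
  apply Finset.sum_congr rfl
  intro c _
  rw [← Finset.sum_sub_distrib]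
  apply Finset.sum_congr rfl
  intro c' _
  ring

lemma kap_congr {E F : Type*} {a h : E → ℝ} {a' h' : F → ℝ} {x y : E} {x' y' : F}
    (h1 : h x < 0 ↔ h' x' < 0) (h2 : h y < 0 ↔ h' y' < 0)
    (h3 : 0 < det2 a h x y ↔ 0 < det2 a' h' x' y')
    (h4 : det2 a h x y < 0 ↔ det2 a' h' x' y' < 0) : kap a h x y = kap a' h' x' y' := by
  unfold kap
  have h1' : 0 ≤ h x ↔ 0 ≤ h' x' := by rw [← not_lt, ← not_lt, h1]
  have h2' : 0 ≤ h y ↔ 0 ≤ h' y' := by rw [← not_lt, ← not_lt, h2]
  simp only [h1, h2, h1', h2', h3, h4]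

/-- the functionals used to read off a pattern -/
noncomputable def fnl {m k : ℕ} (b t : Fin (k + 1) → Fin m → ℝ) :
    Fin (k + 1) × Fin 8 → (Par m →ₗ[ℝ] ℝ)
  | (j, 0) => - ev1 (b j)
  | (j, 1) => - ev1 (t j)
  | (j, 2) => ev2 (b j) (t j)
  | (j, 3) => - ev2 (b j) (t j)
  | (j, 4) => ev2 (t j) (t 0)
  | (j, 5) => - ev2 (t j) (t 0)
  | (j, 6) => ev2 (b 0) (b j)
  | (j, 7) => - ev2 (b 0) (b j)

theorem lower_bound {m k r w : ℕ} (P : Fin r → Fin (k + 1) → Bool) (hP0 : ∀ i, P i 0 = true)
    (hPs : ∀ X : Fin k → Bool, ∃ i, ∀ j, P i j.succ = X j) (W : Vtx k r w → Set (Fin m → ℝ))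
    (hopen : ∀ v, IsOpen (W v)) (hconv : ∀ v, Convex ℝ (W v)) (hU : Convex ℝ (⋃ v, W v))
    (F : Facts P W) :
    2 ^ k ≤ ∑ s ∈ Finset.Iic ((m + 1) + (m + 1) * (m + 1)), (8 * (k + 1)).choose s := by
  classical
  -- separating functions for every bead
  have hsep : ∀ i : Fin r, ∃ α β : Option (Fin m) → ℝ, Signs W i (lin α) (lin β) := by
    intro i
    obtain ⟨α, hα1, hα2⟩ := exists_sep (hconv (side false i)) (hopen _) (hconv (side true i))
      (hopen _) (F.AB i).symm
    obtain ⟨β, hβ1, hβ2⟩ := exists_sep (hconv (neut i.castSucc)) (hopen _)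
      (hconv (neut i.succ)) (hopen _) (F.NN i)
    exact ⟨α, β, lin_aff α, lin_aff β, hα2, hα1, hβ1, hβ2⟩
  choose α β hS using hsep
  have hav : ∀ i, Avoids W i (lin (α i)) (lin (β i)) := fun i =>
    avoids_of_signs F hopen hconv hU (hS i)
  -- points
  have hpt : ∀ (j : Fin (k + 1)) (l : Fin (r + 1)), ∃ y, y ∈ W (rod j) ∧ y ∈ W (neut l) := by
    intro j l
    obtain ⟨i0, _⟩ := hPs (fun _ => true)
    cases r with
    | zero => exact i0.elim0
    | succ r =>
      refine Fin.cases ?_ (fun l => ?_) l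
      · obtain ⟨y, ⟨h1, _⟩, h3⟩ := F.rod0 0 j
        exact ⟨y, h1, h3⟩
      · obtain ⟨y, ⟨h1, _⟩, h3⟩ := F.rod1 l j
        exact ⟨y, h1, h3⟩
  choose y hy hy' using hpt
  set b : Fin (k + 1) → Fin m → ℝ := fun j => y j 0 with hb
  set t : Fin (k + 1) → Fin m → ℝ := fun j => y j (Fin.last r) with ht
  let L : Par m →ₗ[ℝ] (Fin (k + 1) × Fin 8 → ℝ) := LinearMap.pi (fnl b t)
  let Sg : Fin r → Finset (Fin (k + 1) × Fin 8) := fun i =>
    Finset.univ.filter (fun q => 0 < L (parOf (α i) (β i)) q)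
  have hmem : ∀ i q, q ∈ Sg i ↔ 0 < fnl b t q (parOf (α i) (β i)) := by
    intro i q
    have h1 : q ∈ Sg i ↔ q ∈ Finset.univ ∧ 0 < L (parOf (α i) (β i)) q := Finset.mem_filter
    rw [h1]
    simp only [Finset.mem_univ, true_and, L, LinearMap.pi_apply]
  -- `Sg` determines the pattern
  have hinj : ∀ i i', Sg i = Sg i' → ∀ j, P i j = P i' j := by
    intro i i' he j
    have hq : ∀ q, 0 < fnl b t q (parOf (α i) (β i)) ↔ 0 < fnl b t q (parOf (α i') (β i')) := by
      intro q
      rw [← hmem, ← hmem, he]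
    have hb1 : ∀ j, lin (β i) (b j) < 0 ↔ lin (β i') (b j) < 0 := by
      intro j
      have := hq (j, 0)
      simpa [fnl, ev1_parOf] using this
    have ht1 : ∀ j, lin (β i) (t j) < 0 ↔ lin (β i') (t j) < 0 := by
      intro j
      have := hq (j, 1)
      simpa [fnl, ev1_parOf] using this
    have d2 : ∀ j, 0 < det2 (lin (α i)) (lin (β i)) (b j) (t j) ↔
        0 < det2 (lin (α i')) (lin (β i')) (b j) (t j) := by
      intro j
      have := hq (j, 2)
      simpa [fnl, ev2_parOf] using this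
    have d3 : ∀ j, det2 (lin (α i)) (lin (β i)) (b j) (t j) < 0 ↔
        det2 (lin (α i')) (lin (β i')) (b j) (t j) < 0 := by
      intro j
      have := hq (j, 3)
      simpa [fnl, ev2_parOf] using this
    have d4 : 0 < det2 (lin (α i)) (lin (β i)) (t j) (t 0) ↔
        0 < det2 (lin (α i')) (lin (β i')) (t j) (t 0) := by
      have := hq (j, 4)
      simpa [fnl, ev2_parOf] using this
    have d5 : det2 (lin (α i)) (lin (β i)) (t j) (t 0) < 0 ↔
        det2 (lin (α i')) (lin (β i')) (t j) (t 0) < 0 := by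
      have := hq (j, 5)
      simpa [fnl, ev2_parOf] using this
    have d6 : 0 < det2 (lin (α i)) (lin (β i)) (b 0) (b j) ↔
        0 < det2 (lin (α i')) (lin (β i')) (b 0) (b j) := by
      have := hq (j, 6)
      simpa [fnl, ev2_parOf] using this
    have d7 : det2 (lin (α i)) (lin (β i)) (b 0) (b j) < 0 ↔
        det2 (lin (α i')) (lin (β i')) (b 0) (b j) < 0 := by
      have := hq (j, 7)
      simpa [fnl, ev2_parOf] using this
    have e1 := kap_congr (hb1 0) (hb1 j) d6 d7
    have e2 := kap_congr (hb1 j) (ht1 j) (d2 j) (d3 j)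
    have e3 := kap_congr (ht1 j) (ht1 0) d4 d5
    have e4 := kap_congr (hb1 0) (ht1 0) (d2 0) (d3 0)
    have l1 := loop_total hconv F hP0 (hS i) (hav i) y hy hy' j
    have l2 := loop_total hconv F hP0 (hS i') (hav i') y hy hy' j
    have s1 := kap_swap (lin (α i)) (lin (β i)) (b 0) (t 0)
    have s2 := kap_swap (lin (α i')) (lin (β i')) (b 0) (t 0)
    have hEq : (if P i j = false then (-1:ℤ) else 0) = if P i' j = false then -1 else 0 := by
      rw [← l1, ← l2]
      simp only [hb, ht] at e1 e2 e3 e4 s1 s2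
      rw [e1, e2, e3, s1, s2, e4]
    cases h1 : P i j <;> cases h2 : P i' j <;> simp_all
  -- choose beads for patterns
  choose bead hbead using hPs
  let Fam : Finset (Finset (Fin (k + 1) × Fin 8)) := Finset.univ.image (fun X => Sg (bead X))
  have hcard : Fam.card = 2 ^ k := by
    rw [Finset.card_image_of_injective]
    · simp
    · intro X Y hXY
      funext j
      rw [← hbead X j, ← hbead Y j]
      exact hinj _ _ hXY j.succ
  have hvc : Fam.vcDim ≤ Module.finrank ℝ (Par m) := by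
    apply vcDim_le L
    intro S hS
    simp only [Fam, Finset.mem_image, Finset.mem_univ, true_and] at hS
    obtain ⟨X, rfl⟩ := hS
    exact ⟨parOf (α (bead X)) (β (bead X)), fun q => hmem (bead X) q⟩
  have hfr : Module.finrank ℝ (Par m) = (m + 1) + (m + 1) * (m + 1) := by
    simp [Par, Module.finrank_prod]
  rw [hfr] at hvc
  calc 2 ^ k = Fam.card := hcard.symm
    _ ≤ Fam.shatterer.card := Finset.card_le_card_shatterer _
    _ ≤ ∑ s ∈ Finset.Iic Fam.vcDim, (Fintype.card (Fin (k + 1) × Fin 8)).choose s :=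
        Finset.card_shatterer_le_sum_vcDim
    _ ≤ ∑ s ∈ Finset.Iic ((m + 1) + (m + 1) * (m + 1)),
          (Fintype.card (Fin (k + 1) × Fin 8)).choose s := by
        apply Finset.sum_le_sum_of_subset
        exact Finset.Iic_subset_Iic.2 hvc
    _ = ∑ s ∈ Finset.Iic ((m + 1) + (m + 1) * (m + 1)), (8 * (k + 1)).choose s := by
        simp [mul_comm]

end Lower

end Pool.Agent.Helper59.CurT
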