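import Pool.Agent.Helper59.CurLower

open Set Finset

namespace Pool.Agent.Helper59.CurT

open Vtx

section Model

variable {k r w : ℕ}

/-- signs -/
noncomputable def sgn (b : Bool) : ℝ := if b then 1 else -1

lemma sgn_mul_self (b : Bool) : sgn b * sgn b = 1 := by cases b <;> simp [sgn]

lemma abs_sgn (b : Bool) : |sgn b| = 1 := by cases b <;> simp [sgn]

/-- the `l1` norm of the last `k + 1` coordinates -/
noncomputable def nrm (x : Fin (k + 2) → ℝ) : ℝ := ∑ j : Fin (k + 1), |x j.succ|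

/-- signed sum of the last `k + 1` coordinates -/
noncomputable def dlt (p : Fin (k + 1) → Bool) (x : Fin (k + 2) → ℝ) : ℝ :=
  ∑ j : Fin (k + 1), sgn (p j) * x j.succ

/-- the ball times the line -/
def Ball (k : ℕ) : Set (Fin (k + 2) → ℝ) := {x | nrm x < 1}

/-- a slab in the first coordinate -/
def Tm (k : ℕ) (lo hi : ℝ) : Set (Fin (k + 2) → ℝ) := {x | lo < x 0} ∩ {x | x 0 < hi}

/-- the model family -/
def Fam (w : ℕ) (P : Fin r → Fin (k + 1) → Bool) : Vtx k r w → Set (Fin (k + 2) → ℝ)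
  | rod j => (Ball k ∩ Tm k (-4) (10 * r + 4)) ∩ {x | 3 / 4 < x j.succ}
  | neut a => Ball k ∩ Tm k (10 * (a : ℕ) - 4) (10 * (a : ℕ) + 4)
  | cM i => (Ball k ∩ Tm k (10 * (i : ℕ) + 1) (10 * (i : ℕ) + 9)) ∩
      ({x | -(1 / 2) < dlt (P i) x} ∩ {x | dlt (P i) x < 1 / 2})
  | side b i => (Ball k ∩ Tm k (10 * (i : ℕ) + 1) (10 * (i : ℕ) + 9)) ∩
      {x | 0 < sgn b * dlt (P i) x}
  | pad _ => Ball k ∩ Tm k (-1) 1

lemma convex_Ball : Convex ℝ (Ball k) := by
  intro x hx y hy s t hs ht hst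
  simp only [Ball, Set.mem_ofPred_eq] at hx hy ⊢
  have h1 : nrm (s • x + t • y) ≤ s * nrm x + t * nrm y := by
    unfold nrm
    rw [Finset.mul_sum, Finset.mul_sum, ← Finset.sum_add_distrib]
    apply Finset.sum_le_sum
    intro j _
    simp only [Pi.add_apply, Pi.smul_apply, smul_eq_mul]
    calc |s * x j.succ + t * y j.succ| ≤ |s * x j.succ| + |t * y j.succ| := abs_add_le _ _
      _ = s * |x j.succ| + t * |y j.succ| := by
        rw [abs_mul, abs_mul, abs_of_nonneg hs, abs_of_nonneg ht]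
  have h2 : s * nrm x + t * nrm y < 1 := by
    rcases eq_or_lt_of_le hs with h | h
    · have : t = 1 := by linarith
      subst this
      rw [← h]; linarith
    · nlinarith
  linarith

lemma open_Ball : IsOpen (Ball k) := by
  apply isOpen_lt _ continuous_const
  unfold nrm
  fun_prop

lemma convex_lt_aff {E : Type*} [AddCommGroup E] [Module ℝ E] {f : E → ℝ} (hf : Aff f) (c : ℝ) :
    Convex ℝ {x | f x < c} := by
  intro x hx y hy s t hs ht hst
  simp only [Set.mem_ofPred_eq] at hx hy ⊢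
  rw [hf x y s t hst]
  have hc : s * c + t * c = c := by rw [← add_mul, hst, one_mul]
  rcases eq_or_lt_of_le hs with h | h
  · have : t = 1 := by linarith
    subst this
    rw [← h]; linarith
  · have h1 := mul_lt_mul_of_pos_left hx h
    have h2 := mul_le_mul_of_nonneg_left hy.le ht
    linarith

lemma convex_gt_aff {E : Type*} [AddCommGroup E] [Module ℝ E] {f : E → ℝ} (hf : Aff f) (c : ℝ) :
    Convex ℝ {x | c < f x} := by
  intro x hx y hy s t hs ht hst
  simp only [Set.mem_ofPred_eq] at hx hy ⊢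
  rw [hf x y s t hst]
  have hc : s * c + t * c = c := by rw [← add_mul, hst, one_mul]
  rcases eq_or_lt_of_le hs with h | h
  · have : t = 1 := by linarith
    subst this
    rw [← h]; linarith
  · have h1 := mul_lt_mul_of_pos_left hx h
    have h2 := mul_le_mul_of_nonneg_left hy.le ht
    linarith

lemma aff_coord (j : Fin (k + 2)) : Aff (fun x : Fin (k + 2) → ℝ => x j) := by
  intro x y s t _
  simp

lemma aff_dlt (p : Fin (k + 1) → Bool) : Aff (dlt p) := by
  intro x y s t _
  unfold dlt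
  rw [Finset.mul_sum, Finset.mul_sum, ← Finset.sum_add_distrib]
  apply Finset.sum_congr rfl
  intro j _
  simp only [Pi.add_apply, Pi.smul_apply, smul_eq_mul]; ring

lemma aff_mul_dlt (c : ℝ) (p : Fin (k + 1) → Bool) : Aff (fun x => c * dlt p x) := by
  intro x y s t hst
  simp only
  rw [aff_dlt p x y s t hst]; ring

lemma continuous_dlt (p : Fin (k + 1) → Bool) : Continuous (dlt p) := by
  unfold dlt
  fun_prop

lemma convex_Tm (lo hi : ℝ) : Convex ℝ (Tm k lo hi) :=
  (convex_gt_aff (aff_coord 0) lo).inter (convex_lt_aff (aff_coord 0) hi)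

lemma open_Tm (lo hi : ℝ) : IsOpen (Tm k lo hi) :=
  (isOpen_lt continuous_const (continuous_apply 0)).inter
    (isOpen_lt (continuous_apply 0) continuous_const)

lemma convex_Fam (P : Fin r → Fin (k + 1) → Bool) (v : Vtx k r w) : Convex ℝ (Fam w P v) := by
  cases v with
  | rod j =>
    exact (convex_Ball.inter (convex_Tm _ _)).inter (convex_gt_aff (aff_coord j.succ) _)
  | neut a => exact convex_Ball.inter (convex_Tm _ _)
  | cM i =>
    exact (convex_Ball.inter (convex_Tm _ _)).inter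
      ((convex_gt_aff (aff_dlt _) _).inter (convex_lt_aff (aff_dlt _) _))
  | side b i =>
    exact (convex_Ball.inter (convex_Tm _ _)).inter
      (convex_gt_aff (aff_mul_dlt _ _) _)
  | pad s => exact convex_Ball.inter (convex_Tm _ _)

lemma open_Fam (P : Fin r → Fin (k + 1) → Bool) (v : Vtx k r w) : IsOpen (Fam w P v) := by
  cases v with
  | rod j =>
    exact (open_Ball.inter (open_Tm _ _)).inter
      (isOpen_lt continuous_const (continuous_apply j.succ))
  | neut a => exact open_Ball.inter (open_Tm _ _)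
  | cM i =>
    exact (open_Ball.inter (open_Tm _ _)).inter
      ((isOpen_lt continuous_const (continuous_dlt _)).inter
        (isOpen_lt (continuous_dlt _) continuous_const))
  | side b i =>
    exact (open_Ball.inter (open_Tm _ _)).inter
      (isOpen_lt continuous_const (continuous_const.mul (continuous_dlt _)))
  | pad s => exact open_Ball.inter (open_Tm _ _)

lemma iUnion_Fam (P : Fin r → Fin (k + 1) → Bool) :
    (⋃ v : Vtx k r w, Fam w P v) = Ball k ∩ Tm k (-4) (10 * r + 4) := by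
  apply Set.Subset.antisymm
  · apply Set.iUnion_subset
    intro v x hx
    cases v with
    | rod j => exact hx.1
    | neut a =>
      refine ⟨hx.1, ?_, ?_⟩
      · have := hx.2.1
        simp only [Set.mem_ofPred_eq] at this ⊢
        have h0 : (0:ℝ) ≤ ((a : ℕ) : ℝ) := Nat.cast_nonneg _
        linarith
      · have := hx.2.2
        simp only [Set.mem_ofPred_eq] at this ⊢
        have h0 : ((a : ℕ) : ℝ) ≤ r := by exact_mod_cast Nat.lt_succ_iff.1 a.2
        linarith
    | cM i =>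
      refine ⟨hx.1.1, ?_, ?_⟩
      · have := hx.1.2.1
        simp only [Set.mem_ofPred_eq] at this ⊢
        have h0 : (0:ℝ) ≤ ((i : ℕ) : ℝ) := Nat.cast_nonneg _
        linarith
      · have := hx.1.2.2
        simp only [Set.mem_ofPred_eq] at this ⊢
        have h0 : ((i : ℕ) : ℝ) + 1 ≤ r := by exact_mod_cast i.2
        linarith
    | side b i =>
      refine ⟨hx.1.1, ?_, ?_⟩
      · have := hx.1.2.1
        simp only [Set.mem_ofPred_eq] at this ⊢
        have h0 : (0:ℝ) ≤ ((i : ℕ) : ℝ) := Nat.cast_nonneg _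
        linarith
      · have := hx.1.2.2
        simp only [Set.mem_ofPred_eq] at this ⊢
        have h0 : ((i : ℕ) : ℝ) + 1 ≤ r := by exact_mod_cast i.2
        linarith
    | pad s =>
      refine ⟨hx.1, ?_, ?_⟩
      · have := hx.2.1
        simp only [Set.mem_ofPred_eq] at this ⊢
        linarith
      · have := hx.2.2
        simp only [Set.mem_ofPred_eq] at this ⊢
        have h0 : (0:ℝ) ≤ (r : ℝ) := Nat.cast_nonneg _
        linarith
  · rintro x ⟨hb, h1, h2⟩
    simp only [Set.mem_ofPred_eq] at h1 h2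
    set n : ℕ := ⌊(x 0 + 4) / 10⌋₊ with hn
    have hle : (n : ℝ) ≤ (x 0 + 4) / 10 := Nat.floor_le (by linarith)
    have hlt : (x 0 + 4) / 10 < n + 1 := Nat.lt_floor_add_one _
    have hnr : n ≤ r := by
      have h3 : (n : ℝ) < r + 1 := by linarith
      have h4 : n < r + 1 := by exact_mod_cast h3
      omega
    rcases lt_or_ge (x 0) (10 * n + 4) with h | h
    · rcases eq_or_lt_of_le (show 10 * (n:ℝ) - 4 ≤ x 0 by linarith) with h5 | h5
      · -- left end of a neutral slab: the preceding bead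
        have hn0 : n ≠ 0 := by
          rintro h0
          rw [h0] at h5
          norm_num at h5
          linarith
        obtain ⟨n', hn'⟩ := Nat.exists_eq_succ_of_ne_zero hn0
        have hn'' : n' < r := by omega
        have hcast : (n : ℝ) = n' + 1 := by rw [hn']; push_cast; ring
        rcases lt_or_ge 0 (dlt (P ⟨n', hn''⟩) x) with hd | hd
        · refine Set.mem_iUnion.2 ⟨side true ⟨n', hn''⟩, ⟨hb, ?_, ?_⟩, ?_⟩
          · simp only [Set.mem_ofPred_eq]; linarith
          · simp only [Set.mem_ofPred_eq]; linarith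
          · simpa [sgn] using hd
        · rcases eq_or_lt_of_le hd with hd | hd
          · refine Set.mem_iUnion.2 ⟨cM ⟨n', hn''⟩, ⟨hb, ?_, ?_⟩, ?_, ?_⟩
            · simp only [Set.mem_ofPred_eq]; linarith
            · simp only [Set.mem_ofPred_eq]; linarith
            · simp only [Set.mem_ofPred_eq]; linarith
            · simp only [Set.mem_ofPred_eq]; linarith
          · refine Set.mem_iUnion.2 ⟨side false ⟨n', hn''⟩, ⟨hb, ?_, ?_⟩, ?_⟩
            · simp only [Set.mem_ofPred_eq]; linarith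
            · simp only [Set.mem_ofPred_eq]; linarith
            · simpa [sgn] using hd
      · refine Set.mem_iUnion.2 ⟨neut ⟨n, by omega⟩, hb, ?_, ?_⟩
        · simp only [Set.mem_ofPred_eq]; linarith
        · simp only [Set.mem_ofPred_eq]; linarith
    · have hn'' : n < r := by
        rcases Nat.lt_or_ge n r with h6 | h6
        · exact h6
        · have h7 : (r : ℝ) ≤ n := by exact_mod_cast h6
          linarith
      rcases lt_or_ge 0 (dlt (P ⟨n, hn''⟩) x) with hd | hd
      · refine Set.mem_iUnion.2 ⟨side true ⟨n, hn''⟩, ⟨hb, ?_, ?_⟩, ?_⟩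
        · simp only [Set.mem_ofPred_eq]; linarith
        · simp only [Set.mem_ofPred_eq]; linarith
        · simpa [sgn] using hd
      · rcases eq_or_lt_of_le hd with hd | hd
        · refine Set.mem_iUnion.2 ⟨cM ⟨n, hn''⟩, ⟨hb, ?_, ?_⟩, ?_, ?_⟩
          · simp only [Set.mem_ofPred_eq]; linarith
          · simp only [Set.mem_ofPred_eq]; linarith
          · simp only [Set.mem_ofPred_eq]; linarith
          · simp only [Set.mem_ofPred_eq]; linarith
        · refine Set.mem_iUnion.2 ⟨side false ⟨n, hn''⟩, ⟨hb, ?_, ?_⟩, ?_⟩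
          · simp only [Set.mem_ofPred_eq]; linarith
          · simp only [Set.mem_ofPred_eq]; linarith
          · simpa [sgn] using hd

/-- the point with first coordinate `τ` and `j`-th remaining coordinate `c` -/
noncomputable def pt (τ : ℝ) (j : Fin (k + 1)) (c : ℝ) : Fin (k + 2) → ℝ :=
  Fin.cons τ (Pi.single j c)

lemma pt_zero (τ : ℝ) (j : Fin (k + 1)) (c : ℝ) : pt τ j c 0 = τ := rfl

lemma pt_succ (τ : ℝ) (j : Fin (k + 1)) (c : ℝ) (l : Fin (k + 1)) :
    pt τ j c l.succ = if l = j then c else 0 := by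
  unfold pt
  rw [Fin.cons_succ, Pi.single_apply]

lemma nrm_pt (τ : ℝ) (j : Fin (k + 1)) (c : ℝ) : nrm (pt τ j c) = |c| := by
  unfold nrm
  rw [Finset.sum_eq_single j]
  · rw [pt_succ, if_pos rfl]
  · intro l _ hl
    rw [pt_succ, if_neg hl, abs_zero]
  · intro h; exact absurd (Finset.mem_univ _) h

lemma dlt_pt (p : Fin (k + 1) → Bool) (τ : ℝ) (j : Fin (k + 1)) (c : ℝ) :
    dlt p (pt τ j c) = sgn (p j) * c := by
  unfold dlt
  rw [Finset.sum_eq_single j]
  · rw [pt_succ, if_pos rfl]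
  · intro l _ hl
    rw [pt_succ, if_neg hl, mul_zero]
  · intro h; exact absurd (Finset.mem_univ _) h

lemma rod_dlt (p : Fin (k + 1) → Bool) (x : Fin (k + 2) → ℝ) (j : Fin (k + 1)) :
    2 * x j.succ ≤ sgn (p j) * dlt p x + nrm x := by
  unfold dlt nrm
  rw [Finset.mul_sum, ← Finset.sum_add_distrib]
  have h1 : ∀ l ∈ Finset.univ, 0 ≤ sgn (p j) * (sgn (p l) * x (Fin.succ l)) + |x l.succ| := by
    intro l _
    have h2 : |sgn (p j) * (sgn (p l) * x (Fin.succ l))| = |x l.succ| := by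
      rw [abs_mul, abs_mul, abs_sgn, abs_sgn]; ring
    have h3 := neg_abs_le (sgn (p j) * (sgn (p l) * x (Fin.succ l)))
    linarith
  have h4 := Finset.single_le_sum h1 (Finset.mem_univ j)
  have h5 : sgn (p j) * (sgn (p j) * x j.succ) = x j.succ := by
    rw [← mul_assoc, sgn_mul_self, one_mul]
  rw [h5] at h4
  have h6 := le_abs_self (x j.succ)
  linarith

lemma facts_Fam (P : Fin r → Fin (k + 1) → Bool) (hP : ∀ i, P i 0 = true) :
    Facts P (Fam w P) where
  link := by
    rintro i v ⟨x, hxv, hxM⟩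
    obtain ⟨⟨hb, h1, h2⟩, h3, h4⟩ := hxM
    simp only [Set.mem_ofPred_eq, Ball] at hb h1 h2 h3 h4
    cases v with
    | rod j =>
      exfalso
      have h5 := hxv.2
      simp only [Set.mem_ofPred_eq] at h5
      have h6 := rod_dlt (P i) x j
      have h7 : sgn (P i j) * dlt (P i) x < 1 / 2 := by
        cases hPj : P i j
        · simp only [sgn, Bool.false_eq_true, if_false]; linarith
        · simp only [sgn, if_true]; linarith
      linarith
    | neut a =>
      obtain ⟨_, h5, h6⟩ := hxv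
      simp only [Set.mem_ofPred_eq] at h5 h6
      right; right
      have h7 : ((a : ℕ) : ℝ) < (i : ℕ) + 2 := by linarith
      have h8 : ((i : ℕ) : ℝ) < (a : ℕ) + 1 := by linarith
      have h7' : (a : ℕ) < (i : ℕ) + 2 := by exact_mod_cast h7
      have h8' : (i : ℕ) < (a : ℕ) + 1 := by exact_mod_cast h8
      have h9 : (a : ℕ) = i ∨ (a : ℕ) = i + 1 := by omega
      rcases h9 with h9 | h9
      · left; congr 1; exact Fin.ext h9
      · right; congr 1; exact Fin.ext h9
    | cM i' =>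
      obtain ⟨⟨_, h5, h6⟩, _⟩ := hxv
      simp only [Set.mem_ofPred_eq] at h5 h6
      left
      have h7 : ((i' : ℕ) : ℝ) < (i : ℕ) + 1 := by linarith
      have h8 : ((i : ℕ) : ℝ) < (i' : ℕ) + 1 := by linarith
      have h7' : (i' : ℕ) < (i : ℕ) + 1 := by exact_mod_cast h7
      have h8' : (i : ℕ) < (i' : ℕ) + 1 := by exact_mod_cast h8
      congr 1; exact Fin.ext (by omega)
    | side b i' =>
      obtain ⟨⟨_, h5, h6⟩, _⟩ := hxv
      simp only [Set.mem_ofPred_eq] at h5 h6
      right; left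
      have h7 : ((i' : ℕ) : ℝ) < (i : ℕ) + 1 := by linarith
      have h8 : ((i : ℕ) : ℝ) < (i' : ℕ) + 1 := by linarith
      have h7' : (i' : ℕ) < (i : ℕ) + 1 := by exact_mod_cast h7
      have h8' : (i : ℕ) < (i' : ℕ) + 1 := by exact_mod_cast h8
      refine ⟨b, ?_⟩
      congr 1; exact Fin.ext (by omega)
    | pad s =>
      exfalso
      obtain ⟨_, h5, h6⟩ := hxv
      simp only [Set.mem_ofPred_eq] at h5 h6
      have h0 : (0:ℝ) ≤ ((i : ℕ) : ℝ) := Nat.cast_nonneg _
      linarith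
  AB := by
    intro i
    rw [Set.disjoint_left]
    rintro x ⟨_, h1⟩ ⟨_, h2⟩
    simp [sgn] at h1 h2
    linarith
  NN := by
    intro i
    rw [Set.disjoint_left]
    rintro x ⟨_, _, h1⟩ ⟨_, h2, _⟩
    simp only [Set.mem_ofPred_eq, Fin.val_castSucc, Fin.val_succ, Nat.cast_add,
      Nat.cast_one] at h1 h2
    linarith
  mid0 := by
    intro i b
    have hs : |sgn b / 4| = 1 / 4 := by rw [abs_div, abs_sgn]; norm_num
    have hd : dlt (P i) (pt (10 * (i : ℕ) + 2) 0 (sgn b / 4)) = sgn b / 4 := by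
      rw [dlt_pt, hP]; simp [sgn]
    have hr : ((i : ℕ) : ℝ) + 1 ≤ r := by exact_mod_cast i.2
    have hbd := abs_le.1 hs.le
    refine ⟨pt (10 * (i : ℕ) + 2) 0 (sgn b / 4), ⟨⟨⟨?_, ?_, ?_⟩, ?_, ?_⟩, ⟨?_, ?_, ?_⟩, ?_⟩,
      ?_, ?_, ?_⟩
    all_goals simp only [Ball, Set.mem_ofPred_eq, nrm_pt, pt_zero, hd, hs, Fin.val_castSucc]
    all_goals try linarith
    have := sgn_mul_self b
    nlinarith
  mid1 := by
    intro i b
    have hs : |sgn b / 4| = 1 / 4 := by rw [abs_div, abs_sgn]; norm_num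
    have hd : dlt (P i) (pt (10 * (i : ℕ) + 8) 0 (sgn b / 4)) = sgn b / 4 := by
      rw [dlt_pt, hP]; simp [sgn]
    have hr : ((i : ℕ) : ℝ) + 1 ≤ r := by exact_mod_cast i.2
    have hbd := abs_le.1 hs.le
    refine ⟨pt (10 * (i : ℕ) + 8) 0 (sgn b / 4), ⟨⟨⟨?_, ?_, ?_⟩, ?_, ?_⟩, ⟨?_, ?_, ?_⟩, ?_⟩,
      ?_, ?_, ?_⟩
    all_goals simp only [Ball, Set.mem_ofPred_eq, nrm_pt, pt_zero, hd, hs, Fin.val_succ,
      Nat.cast_add, Nat.cast_one]
    all_goals try linarith
    have := sgn_mul_self b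
    nlinarith
  rod0 := by
    intro i j
    have hs : |(7:ℝ) / 8| = 7 / 8 := by norm_num
    have hd : dlt (P i) (pt (10 * (i : ℕ) + 2) j (7 / 8)) = sgn (P i j) * (7 / 8) := dlt_pt _ _ _ _
    have hr : ((i : ℕ) : ℝ) + 1 ≤ r := by exact_mod_cast i.2
    have hi : (0:ℝ) ≤ ((i : ℕ) : ℝ) := Nat.cast_nonneg _
    refine ⟨pt (10 * (i : ℕ) + 2) j (7 / 8), ⟨⟨⟨?_, ?_, ?_⟩, ?_⟩, ⟨?_, ?_, ?_⟩, ?_⟩, ?_, ?_, ?_⟩
    all_goals simp only [Ball, Set.mem_ofPred_eq, nrm_pt, pt_zero, pt_succ, hd, hs,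
      Fin.val_castSucc, if_true]
    all_goals try linarith
    have := sgn_mul_self (P i j)
    nlinarith
  rod1 := by
    intro i j
    have hs : |(7:ℝ) / 8| = 7 / 8 := by norm_num
    have hd : dlt (P i) (pt (10 * (i : ℕ) + 8) j (7 / 8)) = sgn (P i j) * (7 / 8) := dlt_pt _ _ _ _
    have hr : ((i : ℕ) : ℝ) + 1 ≤ r := by exact_mod_cast i.2
    have hi : (0:ℝ) ≤ ((i : ℕ) : ℝ) := Nat.cast_nonneg _
    refine ⟨pt (10 * (i : ℕ) + 8) j (7 / 8), ⟨⟨⟨?_, ?_, ?_⟩, ?_⟩, ⟨?_, ?_, ?_⟩, ?_⟩, ?_, ?_, ?_⟩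
    all_goals simp only [Ball, Set.mem_ofPred_eq, nrm_pt, pt_zero, pt_succ, hd, hs,
      Fin.val_succ, Nat.cast_add, Nat.cast_one, if_true]
    all_goals try linarith
    have := sgn_mul_self (P i j)
    nlinarith

/-- every set of the model family is nonempty -/
lemma nonempty_Fam (P : Fin r → Fin (k + 1) → Bool) (hP : ∀ i, P i 0 = true) (v : Vtx k r w) :
    (Fam w P v).Nonempty := by
  have F := facts_Fam (w := w) P hP
  cases v with
  | rod j =>
    refine ⟨pt 0 j (7 / 8), ⟨⟨?_, ?_, ?_⟩, ?_⟩⟩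
    all_goals simp only [Ball, Set.mem_ofPred_eq, nrm_pt, pt_zero, pt_succ, if_true]
    · rw [abs_of_pos (by norm_num)]; norm_num
    · norm_num
    · positivity
    · norm_num
  | neut a =>
    refine ⟨pt (10 * (a : ℕ)) 0 0, ⟨?_, ?_, ?_⟩⟩
    all_goals simp only [Ball, Set.mem_ofPred_eq, nrm_pt, pt_zero, abs_zero]
    all_goals linarith
  | cM i => obtain ⟨x, ⟨h, _⟩, _⟩ := F.mid0 i true; exact ⟨x, h⟩
  | side b i => obtain ⟨x, ⟨_, h⟩, _⟩ := F.mid0 i b; exact ⟨x, h⟩
  | pad s =>
    refine ⟨pt 0 0 0, ⟨?_, ?_, ?_⟩⟩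
    all_goals simp only [Ball, Set.mem_ofPred_eq, nrm_pt, pt_zero, abs_zero]
    all_goals linarith

end Model

end Pool.Agent.Helper59.CurT
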