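import Pool.Agent.Helper59.QueensC

set_option autoImplicit false

namespace Pool.Agent.Helper59.QC

open Finset

namespace SymG

variable {N δ g : ℤ} {P : Finset ℤ}

/-- Case alpha: `g` is not a diagonal. Then `G g = 0` on `[0, δ-g]`. -/
theorem alpha_le (s : SymG N δ P g) (hα : g ∉ P) :
    ∀ z, 0 ≤ z → (z ≤ δ - g → G P δ g z ≤ 0) := by
  have hg0 := s.g0
  have hg1 := s.g1
  apply strong
  intro z hz ih hz1
  have h1 := s.mono' hz hz1
  by_cases hzg : z < g
  · have h3 : χ P (z - g) = 0 := by
      by_cases hz0 : z = 0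
      · rw [χ_sub_comm, χ_eq_zero' (by omega)]
        subst hz0
        simpa using hα
      · rw [χ_sub_comm]
        exact (s.gmin (g - z) (by omega) (by omega)).1
    have h4 := χ_nonneg P (z - g + g - δ)
    unfold G at h1 ⊢
    omega
  · have h3 := ih (z - g) (by omega) (by omega) (by omega)
    omega

theorem alpha_eq (s : SymG N δ P g) (hα : g ∉ P) {z : ℤ} (hz : 0 ≤ z) (hz1 : z ≤ δ - g) :
    G P δ g z = 0 := by
  have h1 := s.alpha_le hα z hz hz1
  have h2 := s.alpha_le hα (δ - g - z) (by omega) (by omega)
  rw [G_anti] at h2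
  omega

theorem alpha_sym (s : SymG N δ P g) (hα : g ∉ P) {z : ℤ} (hz : z ∈ P) : δ - g - z ∈ P := by
  have h0 := s.rng z hz
  have h1 := s.le_g hz
  have h2 := s.alpha_eq hα h0.1 h1
  unfold G at h2
  have h3 := (χ_eq_one' h0.1).2 hz
  have h4 : χ P (z + g - δ) = 1 := by omega
  rw [← χ_neg, χ_eq_one' (by omega)] at h4
  convert h4 using 1
  ring

/-- Case alpha: the set is an arithmetic progression. -/
theorem alpha (s : SymG N δ P g) (hN : 2 ≤ N) (hα : g ∉ P) :
    ∃ h, g < h ∧ P = ap 0 h (N - 1) ∧ δ = (N - 1) * h + g := by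
  classical
  have hg0 := s.g0
  have hg1 := s.g1
  have hc := s.card
  have hcard : 1 < P.card := by omega
  obtain ⟨x, hx, hx0⟩ := Finset.exists_mem_ne hcard 0
  obtain ⟨h, hh, hmin⟩ := Finset.exists_min_image (P.erase 0) id ⟨x, mem_erase.2 ⟨hx0, hx⟩⟩
  rw [mem_erase] at hh
  obtain ⟨hh0, hhP⟩ := hh
  have hhr := s.rng h hhP
  have hhpos : 0 < h := by omega
  have hgh : g < h := by
    have := s.ge_g hhP hh0
    rcases this.lt_or_eq with h1 | h1
    · exact h1
    · exact absurd (h1 ▸ hhP) hα
  have hle := s.le_g hhP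
  have hmin' : ∀ z, 0 < z → z < h → χ P z = 0 := by
    intro z hz0 hz1
    rw [χ_eq_zero' hz0.le]
    intro hzP
    have := hmin z (mem_erase.2 ⟨by omega, hzP⟩)
    simp only [id] at this
    omega
  have χh : χ P h = 1 := (χ_eq_one' hhpos.le).2 hhP
  have hR : χ P h + χ P (δ - h) = 1 := by
    have h1 := s.χ_add_le (z := h) (by omega) (by omega)
    have h2 := χ_nonneg P (δ - h)
    omega
  have hmono : ∀ z, -h ≤ z → z ≤ δ - h → G P δ h (z + h) ≤ G P δ h z := fun z h1 h2 =>
    s.toSym.G_mono (by omega) (by omega) hR h1 h2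
  -- the total defect
  set f : ℤ → ℤ := G P δ h with hf
  have hsum : S (fun z => f z - f (z + h)) (-h) (δ - h) = 2 * S f (-h) (-1) := by
    have e1 : S (fun z => f z - f (z + h)) (-h) (δ - h)
        = S f (-h) (δ - h) - S (fun z => f (z + h)) (-h) (δ - h) := by
      unfold S; rw [← Finset.sum_sub_distrib]
    have e2 : S (fun z => f (z + h)) (-h) (δ - h) = S f 0 δ := by
      rw [S_shift f (-h) (δ - h) h]; congr 1 <;> ring
    have e3 : S f (-h) (δ - h) = S f (-h) (-1) + S f 0 (δ - h) := by
      rw [S_split (b := -1) (by omega) (by omega)]; norm_num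
    have e4 : S f 0 δ = S f 0 (δ - h) + S f (δ - h + 1) δ :=
      S_split (by omega) (by omega)
    have e5 : S f (δ - h + 1) δ = - S f (-h) (-1) := by
      have a1 : S (fun z => f (δ - h - z)) (-h) (-1) = S f (δ - h + 1) δ := by
        rw [S_refl f (-h) (-1) (δ - h)]; congr 1 <;> ring
      rw [← a1]
      unfold S
      rw [← Finset.sum_neg_distrib]
      apply Finset.sum_congr rfl
      intro z _
      exact G_anti P δ h z
    rw [e1, e2, e3, e4, e5]; ring
  have hS : S f (-h) (-1) ≤ 0 := by
    have e1 : S f (-h) (-1) = S (fun z => χ P z) (-h) (-1)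
        - S (fun z => χ P (z + h - δ)) (-h) (-1) := by
      unfold S; rw [← Finset.sum_sub_distrib]; rfl
    have e2 : S (fun z => χ P z) (-h) (-1) = 1 := by
      have a1 : S (fun z => χ P z) (-h) (-1) = χ P (-h) + S (fun z => χ P z) (-h + 1) (-1) := by
        rw [S_split (b := -h) (by omega) (by omega)]
        congr 1
        unfold S; simp
      have a2 : S (fun z => χ P z) (-h + 1) (-1) = 0 := by
        unfold S
        apply Finset.sum_eq_zero
        intro z hz
        rw [mem_Icc] at hz
        rw [← χ_neg]
        exact hmin' _ (by omega) (by omega)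
      rw [a1, a2, χ_neg, χh]; norm_num
    have e3 : 1 ≤ S (fun z => χ P (z + h - δ)) (-h) (-1) := by
      have a1 : χ P ((g - h) + h - δ) ≤ S (fun z => χ P (z + h - δ)) (-h) (-1) := by
        unfold S
        apply Finset.single_le_sum (f := fun z => χ P (z + h - δ))
        · intro z _; exact χ_nonneg _ _
        · rw [mem_Icc]; omega
      have a2 : χ P ((g - h) + h - δ) = 1 := by
        rw [← χ_neg, χ_eq_one' (by omega)]
        have := s.alpha_sym hα s.P0
        convert this using 1
        ring
      omega
    omega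
  have hper : ∀ z, -h ≤ z → z ≤ δ - h → f (z + h) = f z := by
    have hnn : ∀ z ∈ Finset.Icc (-h) (δ - h), 0 ≤ f z - f (z + h) := by
      intro z hz
      rw [mem_Icc] at hz
      have := hmono z hz.1 hz.2
      omega
    have h0 : ∑ z ∈ Finset.Icc (-h) (δ - h), (f z - f (z + h)) = 0 := by
      have h1 := Finset.sum_nonneg hnn
      have h2 : ∑ z ∈ Finset.Icc (-h) (δ - h), (f z - f (z + h)) = 2 * S f (-h) (-1) := hsum
      omega
    rw [Finset.sum_eq_zero_iff_of_nonneg hnn] at h0
    intro z h1 h2
    have := h0 z (by rw [mem_Icc]; exact ⟨h1, h2⟩)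
    omega
  -- values on the first period
  have hneg1 : ∀ z, -h ≤ z → z ≤ -1 → f z = -1 → z = g - h := by
    intro z hz0 hz1 hz
    have h1 : χ P (z + h - δ) = 1 := by
      apply χ_ne_zero
      intro h2
      have := χ_nonneg P z
      rw [hf] at hz
      unfold G at hz
      omega
    rw [← χ_neg, χ_eq_one' (by omega)] at h1
    have h2 := s.alpha_sym hα h1
    have h3 : δ - g - -(z + h - δ) = z + h - g := by ring
    rw [h3] at h2
    have h4 := s.rng _ h2
    by_contra hcon
    have h5 := hmin' (z + h - g) (by omega) (by omega)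
    rw [χ_eq_zero' (by omega)] at h5
    exact h5 h2
  have hper2 : ∀ z, 0 ≤ z → (z ≤ δ → ((h ∣ z → f z = 1) ∧ (f z = -1 → h ∣ z - g))) := by
    apply strong
    intro z hz ih hz1
    have h1 := hper (z - h) (by omega) (by omega)
    rw [sub_add_cancel] at h1
    by_cases hzh : z < h
    · constructor
      · intro hdvd
        have hz0 : z = 0 := Int.eq_zero_of_dvd_of_nonneg_of_lt hz hzh hdvd
        subst hz0
        rw [h1, hf]
        unfold G
        have a1 : χ P (0 - h) = 1 := by rw [zero_sub, χ_neg, χh]
        have a2 : χ P (0 - h + h - δ) = 0 := s.toSym.χ_big' (by omega)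
        omega
      · intro hm
        have h2 := hneg1 (z - h) (by omega) (by omega) (by omega)
        have : z - g = 0 := by omega
        rw [this]; exact dvd_zero h
    · obtain ⟨h2, h3⟩ := ih (z - h) (by omega) (by omega) (by omega)
      constructor
      · intro hdvd
        rw [h1]
        exact h2 (dvd_sub hdvd (dvd_refl h))
      · intro hm
        have h4 := h3 (by omega)
        have h5 : z - g = (z - h - g) + h := by ring
        rw [h5]
        exact dvd_add h4 (dvd_refl h)
  -- all elements are multiples of `h`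
  have hdvd : ∀ z, 0 ≤ z → (z ∈ P → h ∣ z) := by
    apply strong
    intro z hz ih hzP
    by_cases hz0 : z = 0
    · subst hz0; exact dvd_zero h
    · have h1 : h ≤ z := by
        have := hmin z (mem_erase.2 ⟨hz0, hzP⟩)
        simpa using this
      have h2 := s.le_g hzP
      have h3 := s.alpha_sym hα hzP
      have h4 : f (z - (h - g)) = χ P (z - (h - g)) - 1 := by
        rw [hf]
        unfold G
        have : χ P (z - (h - g) + h - δ) = 1 := by
          rw [← χ_neg, χ_eq_one' (by omega)]
          convert h3 using 1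
          ring
        rw [this]
      obtain ⟨h5, h6⟩ := hper2 (z - (h - g)) (by omega) (by omega)
      by_cases h7 : χ P (z - (h - g)) = 1
      · exfalso
        have h8 := ih (z - (h - g)) (by omega) (by omega) ((χ_eq_one' (by omega)).1 h7)
        have h9 := h5 h8
        omega
      · have h8 := χ_ne_one h7
        have h9 := h6 (by omega)
        have h10 : z = (z - (h - g) - g) + h := by ring
        rw [h10]
        exact dvd_add h9 (dvd_refl h)
  have hmul : ∀ z, 0 ≤ z → z ≤ δ - h → h ∣ z → z ∈ P := by
    intro z hz0 hz1 hz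
    have h1 := (hper2 z hz0 (by omega)).1 hz
    rw [hf] at h1
    unfold G at h1
    have h2 := χ_le_one P z
    have h3 := χ_nonneg P (z + h - δ)
    exact (χ_eq_one' hz0).1 (by omega)
  have htop : δ - g ∈ P := by
    have := s.alpha_sym hα s.P0
    simpa using this
  obtain ⟨q, hq⟩ := hdvd (δ - g) (by omega) htop
  have hq0 : 0 ≤ q := by
    by_contra hcon
    have : h * q ≤ h * (-1) := mul_le_mul_of_nonneg_left (by omega) hhpos.le
    omega
  have hPeq : P = ap 0 h q := by
    ext z
    rw [mem_ap]
    constructor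
    · intro hz
      have h0 := s.rng z hz
      have h1 := s.le_g hz
      obtain ⟨i, hi⟩ := hdvd z h0.1 hz
      refine ⟨i, ?_, ?_, by rw [hi]; ring⟩
      · by_contra hcon
        have : h * i ≤ h * (-1) := mul_le_mul_of_nonneg_left (by omega) hhpos.le
        omega
      · have : h * i ≤ h * q := by omega
        exact le_of_mul_le_mul_left this hhpos
    · rintro ⟨i, hi0, hi1, rfl⟩
      by_cases hi : i = q
      · subst hi
        have : 0 + h * i = δ - g := by omega
        rw [this]; exact htop
      · apply hmul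
        · have := mul_nonneg hhpos.le hi0
          omega
        · have : h * i ≤ h * (q - 1) := mul_le_mul_of_nonneg_left (by omega) hhpos.le
          rw [mul_sub] at this
          omega
        · rw [zero_add]; exact dvd_mul_right h i
  have hcq : q + 1 = N := by
    rw [← s.card, hPeq, card_ap hhpos (by omega)]
  refine ⟨h, hgh, ?_, ?_⟩
  · rw [hPeq]; congr 1; omega
  · have : q = N - 1 := by omega
    rw [this] at hq
    rw [mul_comm] at hq
    omega

end SymG

end Pool.Agent.Helper59.QC
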