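import Pool.Agent.Helper59.QueensC

set_option autoImplicit false

namespace Pool.Agent.Helper59.QC

open Finset

namespace SymG

variable {N δ g : ℤ} {P : Finset ℤ}

/-- Case beta: `g` is a diagonal. -/
theorem beta_ng (s : SymG N δ P g) (hβ : g ∈ P) : δ - g ∉ P := s.disj g hβ

theorem beta_lt (s : SymG N δ P g) (hβ : g ∈ P) {z : ℤ} (hz : z ∈ P) : z < δ - g := by
  have h1 := s.le_g hz
  rcases h1.lt_or_eq with h | h
  · exact h
  · exact absurd (h ▸ hz) (s.beta_ng hβ)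

theorem beta_2g (s : SymG N δ P g) (hβ : g ∈ P) : 2 * g < δ := by
  have := s.beta_lt hβ hβ
  omega

/-- The set `K₀` of the values where `G g = 1`. -/
theorem beta_K (s : SymG N δ P g) (hβ : g ∈ P) : ∃ k, 1 ≤ k ∧
    (Finset.Icc 0 (δ - g)).filter (fun z => G P δ g z = 1) = ap 0 g (k - 1) := by
  have hg0 := s.g0
  have hg1 := s.g1
  have h2 := s.beta_2g hβ
  obtain ⟨q, hq0, hq⟩ := chain (F := (Finset.Icc 0 (δ - g)).filter (fun z => G P δ g z = 1))
    (b := 0) (c := g) hg0 (by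
      intro z hz
      rw [mem_filter, mem_Icc] at hz
      exact hz.1.1) (by
      intro z hz hz0
      rw [mem_filter, mem_Icc] at hz ⊢
      have h3 := s.G_dvd z hz.1.1 hz.1.2 hz.2
      have h4 : g ≤ z := Int.le_of_dvd (by omega) h3
      have h5 := s.mono' hz.1.1 hz.1.2
      have h6 := G_le_one P δ g (z - g)
      exact ⟨by omega, by omega⟩) (by
      refine ⟨0, ?_⟩
      rw [mem_filter, mem_Icc]
      refine ⟨by omega, ?_⟩
      unfold G
      have h3 := s.toSym.χ_zero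
      have h4 : χ P (0 + g - δ) = 0 := by
        rw [← χ_neg, χ_eq_zero' (by omega)]
        have := s.beta_ng hβ
        convert this using 1
        ring_nf
      omega)
  exact ⟨q + 1, by omega, by rw [hq]; congr 1; omega⟩

end SymG

/-- Case beta bundled with the initial progression `K₀` of length `k` and the rest `T`. -/
structure Beta (N δ : ℤ) (P : Finset ℤ) (g k : ℤ) (T : Finset ℤ) : Prop
    extends SymG N δ P g where
  hβ : g ∈ P
  hk : 1 ≤ k
  hPT : P = ap 0 g (k - 1) ∪ T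
  hdis : Disjoint (ap 0 g (k - 1)) T
  hKz : ∀ z ∈ ap 0 g (k - 1), G P δ g z = 1 ∧ 0 ≤ z ∧ z ≤ δ - g
  hKz' : ∀ z, 0 ≤ z → z ≤ δ - g → G P δ g z = 1 → z ∈ ap 0 g (k - 1)

theorem SymG.beta {N δ g : ℤ} {P : Finset ℤ} (s : SymG N δ P g) (hβ : g ∈ P) :
    ∃ k T, Beta N δ P g k T := by
  obtain ⟨k, hk, hK⟩ := s.beta_K hβ
  have hKz : ∀ z ∈ ap 0 g (k - 1), G P δ g z = 1 ∧ 0 ≤ z ∧ z ≤ δ - g := by
    intro z hz
    rw [← hK, mem_filter, mem_Icc] at hz
    exact ⟨hz.2, hz.1⟩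
  have hsub : ap 0 g (k - 1) ⊆ P := by
    intro z hz
    obtain ⟨h1, h2, h3⟩ := hKz z hz
    unfold G at h1
    have := χ_le_one P z
    have := χ_nonneg P (z + g - δ)
    exact (χ_eq_one' h2).1 (by omega)
  refine ⟨k, P \ ap 0 g (k - 1), s, hβ, hk, ?_, Finset.disjoint_sdiff, hKz, ?_⟩
  · rw [Finset.union_sdiff_of_subset hsub]
  · intro z h1 h2 h3
    rw [← hK, mem_filter, mem_Icc]
    exact ⟨⟨h1, h2⟩, h3⟩

namespace Beta

variable {N δ g k : ℤ} {P T : Finset ℤ}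

theorem mem_iff (s : Beta N δ P g k T) {z : ℤ} : z ∈ P ↔ z ∈ ap 0 g (k - 1) ∨ z ∈ T := by
  conv_lhs => rw [s.hPT]
  rw [mem_union]

theorem TP (s : Beta N δ P g k T) {z : ℤ} (hz : z ∈ T) : z ∈ P := s.mem_iff.2 (Or.inr hz)

theorem KP (s : Beta N δ P g k T) {z : ℤ} (hz : z ∈ ap 0 g (k - 1)) : z ∈ P :=
  s.mem_iff.2 (Or.inl hz)

theorem TK (s : Beta N δ P g k T) {z : ℤ} (hz : z ∈ T) : z ∉ ap 0 g (k - 1) :=
  fun h => Finset.disjoint_left.1 s.hdis h hz

theorem mulK (s : Beta N δ P g k T) {i : ℤ} (h0 : 0 ≤ i) (h1 : i < k) :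
    g * i ∈ ap 0 g (k - 1) := by
  rw [mem_ap]
  exact ⟨i, h0, by omega, by ring⟩

theorem zeroK (s : Beta N δ P g k T) : (0 : ℤ) ∈ ap 0 g (k - 1) := by
  have := s.hk
  have h := s.mulK (i := 0) le_rfl (by omega)
  simpa using h

theorem T_ne0 (s : Beta N δ P g k T) {z : ℤ} (hz : z ∈ T) : z ≠ 0 := by
  rintro rfl
  exact s.TK hz s.zeroK

theorem T_ge (s : Beta N δ P g k T) {z : ℤ} (hz : z ∈ T) : g ≤ z :=
  s.ge_g (s.TP hz) (s.T_ne0 hz)

theorem T_lt (s : Beta N δ P g k T) {z : ℤ} (hz : z ∈ T) : z < δ - g :=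
  s.beta_lt s.hβ (s.TP hz)

/-- `T` is symmetric. -/
theorem T_sym (s : Beta N δ P g k T) {z : ℤ} (hz : z ∈ T) : δ - g - z ∈ T := by
  have hg0 := s.g0
  have h1 := s.T_ge hz
  have h2 := s.T_lt hz
  have h3 : G P δ g z ≠ 1 := fun h => s.TK hz (s.hKz' z (by omega) (by omega) h)
  have h4 : χ P z = 1 := (χ_eq_one' (by omega)).2 (s.TP hz)
  have h5 : χ P (z + g - δ) = 1 := by
    apply χ_ne_zero
    intro h
    apply h3
    unfold G
    omega
  have h6 : δ - g - z ∈ P := by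
    rw [← χ_neg, χ_eq_one' (by omega)] at h5
    convert h5 using 1
    ring
  rcases s.mem_iff.1 h6 with h7 | h7
  · exfalso
    have h8 := (s.hKz _ h7).1
    rw [G_anti] at h8
    unfold G at h8
    omega
  · exact h7

/-- No two elements of `T` differ by `g`. -/
theorem T_sub (s : Beta N δ P g k T) {z : ℤ} (hz : z ∈ T) : z - g ∉ T := by
  intro h
  have h1 := s.T_sym h
  have h2 : δ - g - (z - g) = δ - z := by ring
  rw [h2] at h1
  exact s.disj z (s.TP hz) (s.TP h1)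

theorem T_add (s : Beta N δ P g k T) {z : ℤ} (hz : z ∈ T) : z + g ∉ T := by
  intro h
  have := s.T_sub h
  rw [add_sub_cancel_right] at this
  exact this hz

theorem small (s : Beta N δ P g k T) {z : ℤ} (h0 : 0 < z) (h1 : z < g) : z ∉ P := by
  intro h
  have := s.ge_g h (by omega)
  omega

theorem cardT (s : Beta N δ P g k T) : (T.card : ℤ) = N - k := by
  have h1 := s.card
  have h2 := card_union_of_disjoint s.hdis
  rw [← s.hPT] at h2
  have h3 := card_ap (b := 0) (c := g) (q := k - 1) s.g0 (by have := s.hk; omega)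
  have h4 : (P.card : ℤ) = (ap 0 g (k - 1)).card + T.card := by exact_mod_cast h2
  omega

end Beta

end Pool.Agent.Helper59.QC
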