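import Pool.Agent.Helper59.QueensBeta

set_option autoImplicit false

namespace Pool.Agent.Helper59.QC

open Finset

namespace Beta

variable {N δ g k : ℤ} {P T : Finset ℤ}

/-- The basic descent step when the line `2g` is empty. -/
theorem step2 (s : Beta N δ P g k T) (h2 : 2 * g ∈ P ∨ δ - 2 * g ∈ P) {w : ℤ} (hw : w ∈ T) :
    |w - 2 * g| ∈ P ∨ w = δ - (k + 1) * g := by
  have hg0 := s.g0
  have h2g := s.beta_2g s.hβ
  have hw0 := s.T_ge hw
  have hw1 := s.T_lt hw
  rcases s.cov (2 * g) w (by omega) (by omega) (by omega) (by omega) h2 (Or.inl (s.TP hw))
    with h | h
  · left
    rw [abs_sub_comm]; exact h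
  · right
    have hz := s.T_sym hw
    have hz0 := s.T_ge hz
    have e1 : |2 * g + w - δ| = (δ - g - w) - g := by
      rw [← abs_neg, abs_of_nonneg (by omega)]; ring
    rw [e1] at h
    rcases s.mem_iff.1 h with h3 | h3
    · rw [mem_ap] at h3
      obtain ⟨i, hi0, hi1, hi2⟩ := h3
      by_cases hi : i = k - 1
      · subst hi
        have : g * (k - 1) = k * g - g := by ring
        have : (k + 1) * g = k * g + g := by ring
        omega
      · exfalso
        apply s.TK hz
        rw [mem_ap]
        refine ⟨i + 1, by omega, by omega, ?_⟩
        have : g * (i + 1) = g * i + g := by ring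
        omega
    · exact absurd h3 (s.T_sub hz)

theorem not_dvd (s : Beta N δ P g k T) {x : ℤ} (hx : x ∈ T) (hxk : x < k * g) : ¬ g ∣ x := by
  rintro ⟨i, rfl⟩
  have hg0 := s.g0
  have h1 := s.T_ge hx
  have h2 : g * i < g * k := by rw [mul_comm g k]; exact hxk
  have h3 : i < k := lt_of_mul_lt_mul_left h2 hg0.le
  have h4 : 0 ≤ i := by
    by_contra hcon
    have : g * i ≤ g * (-1) := mul_le_mul_of_nonneg_left (by omega) hg0.le
    omega
  exact s.TK hx (s.mulK h4 h3)

/-- Classification when the line `2g` is empty. -/
theorem beta1 (s : Beta N δ P g k T) (hN : 4 ≤ N) (h2 : 2 * g ∈ P ∨ δ - 2 * g ∈ P) :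
    P = ap 0 g (N - 1) ∨
    (δ - (N - 1) * g ∉ ap 0 g (N - 2) ∧ P = ap 0 g (N - 2) ∪ {δ - (N - 1) * g}) ∨
    (δ = 4 * N - 2 ∧ ∀ p ∈ P, Even p) := by
  classical
  have hg0 := s.g0
  have h2g := s.beta_2g s.hβ
  have hk := s.hk
  have hcT := s.cardT
  have hlo := s.lo
  have hhi := s.hi
  rcases T.eq_empty_or_nonempty with hT | hT
  · left
    rw [hT] at hcT
    simp only [card_empty, Nat.cast_zero] at hcT
    rw [s.hPT, hT, union_empty]
    congr 1; omega
  · obtain ⟨w0, hw0, hmin⟩ := Finset.exists_min_image T id hT
    simp only [id] at hmin
    have hmax : ∀ x ∈ T, x ≤ δ - g - w0 := by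
      intro x hx
      have := hmin _ (s.T_sym hx)
      omega
    have hw0g := s.T_ge hw0
    have hw0l := s.T_lt hw0
    by_cases hA : w0 = δ - (k + 1) * g
    · -- sub-case A
      have hmx : δ - g - w0 = k * g := by
        have : (k + 1) * g = k * g + g := by ring
        omega
      have hkT : k * g ∈ T := by rw [← hmx]; exact s.T_sym hw0
      have hdesc : ∀ x, 0 ≤ x → (x ∈ T → x < k * g → ∃ j, 0 ≤ j ∧ x = w0 + 2 * g * j) := by
        apply strong
        intro x hx ih hxT hxk
        by_cases hxw : x = w0
        · exact ⟨0, le_rfl, by rw [hxw]; ring⟩
        · have hnd := s.not_dvd hxT hxk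
          have hxg := s.T_ge hxT
          have h3 : |x - 2 * g| ∈ P := by
            rcases s.step2 h2 hxT with h | h
            · exact h
            · exact absurd (h.trans hA.symm) hxw
          have hx1 : x ≠ g := by rintro rfl; exact hnd (dvd_refl _)
          have hx2 : x ≠ 2 * g := by rintro rfl; exact hnd (Dvd.intro_left 2 rfl)
          rcases lt_or_gt_of_ne hx2 with h4 | h4
          · exfalso
            rw [abs_of_neg (by omega)] at h3
            exact s.small (z := -(x - 2 * g)) (by omega) (by omega) h3
          · rw [abs_of_pos (by omega)] at h3
            rcases s.mem_iff.1 h3 with h5 | h5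
            · exfalso
              rw [mem_ap] at h5
              obtain ⟨i, _, _, hi⟩ := h5
              apply hnd
              refine ⟨i + 2, ?_⟩
              have : g * (i + 2) = g * i + 2 * g := by ring
              omega
            · obtain ⟨j, hj0, hj⟩ := ih (x - 2 * g) (by omega) (by omega) h5 (by omega)
              refine ⟨j + 1, by omega, ?_⟩
              have : 2 * g * (j + 1) = 2 * g * j + 2 * g := by ring
              omega
      have honly : ∀ x ∈ T, x = w0 ∨ x = k * g := by
        intro x hx
        by_contra hcon
        push Not at hcon
        have h3 := hmin x hx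
        have h4 := hmax x hx
        have hxl : x < k * g := by omega
        obtain ⟨j, hj0, hj⟩ := hdesc x (by omega) hx hxl
        obtain ⟨j', hj0', hj'⟩ := hdesc (δ - g - x) (by have := s.T_ge (s.T_sym hx); omega)
          (s.T_sym hx) (by omega)
        apply s.not_dvd hx hxl
        -- w0 is a multiple of g
        refine ⟨k - 2 * (j + j') + 2 * j, ?_⟩
        have e1 : g * (k - 2 * (j + j') + 2 * j) = k * g - 2 * g * j - 2 * g * j' + 2 * g * j := by
          ring
        omega
      have hTeq : T = {w0, k * g} := by
        ext x
        rw [mem_insert, mem_singleton]
        constructor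
        · exact honly x
        · rintro (rfl | rfl)
          · exact hw0
          · exact hkT
      by_cases hwk : w0 = k * g
      · left
        have hTs : T = {k * g} := by rw [hTeq, hwk]; simp
        have hc1 : (T.card : ℤ) = 1 := by rw [hTs]; simp
        have hkN : k = N - 1 := by omega
        rw [s.hPT, hTs, hkN]
        ext z
        rw [mem_union, mem_singleton, mem_ap, mem_ap]
        constructor
        · rintro (⟨i, h1, h3, h4⟩ | h)
          · exact ⟨i, h1, by omega, h4⟩
          · exact ⟨N - 1, by omega, le_rfl, by rw [h]; ring⟩
        · rintro ⟨i, h1, h3, h4⟩
          by_cases hi : i = N - 1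
          · right; rw [h4, hi]; ring
          · left; exact ⟨i, h1, by omega, h4⟩
      · right; left
        have hc1 : (T.card : ℤ) = 2 := by
          rw [hTeq, card_insert_of_notMem (by simpa using hwk)]; simp
        have hkN : k = N - 2 := by omega
        have hw0' : w0 = δ - (N - 1) * g := by rw [hA, hkN]; ring
        have hPeq : P = ap 0 g (N - 2) ∪ {δ - (N - 1) * g} := by
          rw [s.hPT, hTeq, hkN, ← hw0']
          ext z
          rw [mem_union, mem_union, mem_insert, mem_singleton, mem_singleton, mem_ap, mem_ap]
          constructor
          · rintro (⟨i, h1, h3, h4⟩ | h | h)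
            · exact Or.inl ⟨i, h1, by omega, h4⟩
            · exact Or.inr h
            · exact Or.inl ⟨N - 2, by omega, le_rfl, by rw [h]; ring⟩
          · rintro (⟨i, h1, h3, h4⟩ | h)
            · by_cases hi : i = N - 2
              · right; right; rw [h4, hi]; ring
              · left; exact ⟨i, h1, by omega, h4⟩
            · exact Or.inr (Or.inl h)
        refine ⟨?_, hPeq⟩
        rw [← hw0', mem_ap]
        rintro ⟨i, h1, h3, h4⟩
        by_cases hi : i = N - 2
        · apply hwk; rw [h4, hi, hkN]; ring
        · apply s.TK hw0
          rw [mem_ap]
          exact ⟨i, h1, by omega, h4⟩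
    · -- sub-case B
      have h3 : |w0 - 2 * g| ∈ P := by
        rcases s.step2 h2 hw0 with h | h
        · exact h
        · exact absurd h hA
      have hw0k : w0 = k * g ∨ w0 = (k + 1) * g := by
        by_cases hwg : w0 = g
        · left
          have : k = 1 := by
            by_contra hcon
            apply s.TK hw0
            have := s.mulK (i := 1) (by omega) (by omega)
            rw [hwg]; simpa using this
          rw [this, one_mul]; exact hwg
        · have h4 : 2 * g ≤ w0 := by
            by_contra hcon
            rw [abs_of_neg (by omega)] at h3
            exact s.small (z := -(w0 - 2 * g)) (by omega) (by omega) h3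
          rw [abs_of_nonneg (by omega)] at h3
          rcases s.mem_iff.1 h3 with h5 | h5
          · rw [mem_ap] at h5
            obtain ⟨i, hi0, hi1, hi⟩ := h5
            have hw : w0 = g * (i + 2) := by rw [mul_add]; omega
            have h6 : ¬ (i + 2 < k) := by
              intro h7
              apply s.TK hw0
              rw [hw]
              exact s.mulK (by omega) h7
            by_cases h7 : i + 2 = k
            · left; rw [hw, h7]; ring
            · right
              have : i + 2 = k + 1 := by omega
              rw [hw, this]; ring
          · exfalso
            have := hmin _ h5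
            omega
      rcases hw0k with hw0k | hw0k
      · -- B1
        have hM : δ - g - w0 ∈ T := s.T_sym hw0
        have hMne : δ - g - w0 ≠ w0 := by
          intro h
          apply hA
          have : (k + 1) * g = k * g + g := by ring
          omega
        have hMA : δ - g - w0 = δ - (k + 1) * g := by
          have : (k + 1) * g = k * g + g := by ring
          omega
        obtain ⟨q, hq0, hq⟩ := chain (F := T.erase (δ - g - w0)) (b := w0) (c := 2 * g)
          (by omega) (by
            intro z hz
            exact hmin z (mem_of_mem_erase hz)) (by
            intro x hx hxw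
            rw [mem_erase] at hx
            have hx1 := hmin x hx.2
            have hx2 := hmax x hx.2
            have h4 : |x - 2 * g| ∈ P := by
              rcases s.step2 h2 hx.2 with h | h
              · exact h
              · exact absurd (h.trans hMA.symm) hx.1
            have h5 : 2 * g ≤ x := by
              by_contra hcon
              rw [abs_of_neg (by omega)] at h4
              exact s.small (z := -(x - 2 * g)) (by omega) (by omega) h4
            rw [abs_of_nonneg (by omega)] at h4
            rcases s.mem_iff.1 h4 with h6 | h6
            · exfalso
              rw [mem_ap] at h6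
              obtain ⟨i, hi0, hi1, hi⟩ := h6
              have hxi : x = g * (i + 2) := by rw [mul_add]; omega
              have h7 : k < i + 2 := by
                have : g * k < g * (i + 2) := by
                  rw [← hxi, mul_comm g k, ← hw0k]; omega
                exact lt_of_mul_lt_mul_left this hg0.le
              have h8 : i + 2 = k + 1 := by omega
              apply s.T_sub hx.2
              have : x - g = w0 := by rw [hxi, h8, hw0k]; ring
              rw [this]; exact hw0
            · rw [mem_erase]
              exact ⟨by omega, h6⟩)
          ⟨w0, mem_erase.2 ⟨fun h => hMne h.symm, hw0⟩⟩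
        have hcard : (T.card : ℤ) = q + 2 := by
          have h4 := card_erase_of_mem hM
          have h5 := card_ap (b := w0) (c := 2 * g) (q := q) (by omega) (by omega)
          rw [← hq] at h5
          have h6 : 0 < T.card := card_pos.2 hT
          omega
        have hTq : ∀ z, z ∈ T ↔ z = δ - g - w0 ∨ ∃ i, 0 ≤ i ∧ i ≤ q ∧ z = w0 + 2 * g * i := by
          intro z
          rw [← mem_ap, ← hq, mem_erase]
          by_cases hz : z = δ - g - w0
          · simp only [hz, true_or, iff_true]; exact hM
          · simp [hz]
        by_cases hq1 : q = 0
        · right; left
          have hkN : k = N - 2 := by omega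
          have hM' : δ - g - w0 = δ - (N - 1) * g := by rw [hMA, hkN]; ring
          have hPeq : P = ap 0 g (N - 2) ∪ {δ - (N - 1) * g} := by
            ext z
            rw [s.mem_iff, hTq, ← hM', mem_union, mem_singleton, mem_ap, mem_ap]
            constructor
            · rintro (⟨i, h1, h4, h5⟩ | h | ⟨i, h1, h4, h5⟩)
              · exact Or.inl ⟨i, h1, by omega, h5⟩
              · exact Or.inr h
              · left
                have : i = 0 := by omega
                refine ⟨N - 2, by omega, le_rfl, ?_⟩
                rw [h5, this, hw0k, hkN]; ring
            · rintro (⟨i, h1, h4, h5⟩ | h)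
              · by_cases hi : i = N - 2
                · right; right
                  refine ⟨0, le_rfl, by omega, ?_⟩
                  rw [h5, hi, hw0k, hkN]; ring
                · left; exact ⟨i, h1, by omega, h5⟩
              · exact Or.inr (Or.inl h)
          refine ⟨?_, hPeq⟩
          rw [← hM', mem_ap]
          rintro ⟨i, h1, h4, h5⟩
          by_cases hi : i = N - 2
          · apply hMne; rw [h5, hi, hw0k, hkN]; ring
          · apply s.TK hM
            rw [mem_ap]
            exact ⟨i, h1, by omega, h5⟩
        · right; right
          have h4 : w0 + 2 * g * 1 ∈ T := (hTq _).2 (Or.inr ⟨1, by omega, by omega, rfl⟩)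
          have h5 := s.T_sym h4
          rw [hTq] at h5
          have hMq : δ - g - w0 = w0 + 2 * g * (q + 1) := by
            rcases h5 with h5 | ⟨i, hi0, hi1, hi⟩
            · omega
            · have h6 : δ - g - w0 = w0 + 2 * g * (i + 1) := by
                have : 2 * g * (i + 1) = 2 * g * i + 2 * g * 1 := by ring
                omega
              have h7 : δ - g - w0 ∉ T.erase (δ - g - w0) := notMem_erase _ _
              rw [hq, mem_ap] at h7
              by_cases h8 : i = q
              · rw [h6, h8]
              · exfalso
                apply h7
                exact ⟨i + 1, by omega, by omega, h6⟩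
          have hδ : δ = (2 * N - 1) * g := by
            have hkq : k = N - q - 2 := by omega
            have : δ = g + 2 * w0 + 2 * g * (q + 1) := by omega
            rw [this, hw0k, hkq]; ring
          have hg2 : g = 2 := by
            have h6 : 1 < g := by
              by_contra hcon
              have : g = 1 := by omega
              rw [this] at hδ
              omega
            have h7 : g < 3 := by
              by_contra hcon
              have : (2 * N - 1) * 3 ≤ (2 * N - 1) * g :=
                mul_le_mul_of_nonneg_left (by omega) (by omega)
              omega
            omega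
          refine ⟨by rw [hδ, hg2]; ring, ?_⟩
          intro p hp
          have hdv : g ∣ p := by
            rcases s.mem_iff.1 hp with h6 | h6
            · rw [mem_ap] at h6
              obtain ⟨i, _, _, hi⟩ := h6
              exact ⟨i, by rw [hi]; ring⟩
            · rcases (hTq p).1 h6 with h7 | ⟨i, _, _, hi⟩
              · refine ⟨2 * N - 1 - 1 - k, ?_⟩
                rw [h7, hδ, hw0k]; ring
              · exact ⟨k + 2 * i, by rw [hi, hw0k]; ring⟩
          rw [hg2] at hdv
          exact even_iff_two_dvd.2 hdv
      · -- B2
        exfalso
        have hnk : k * g ∉ T := by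
          intro h
          have := hmin _ h
          have : (k + 1) * g = k * g + g := by ring
          omega
        have hnM : δ - (k + 1) * g ∉ T := by
          intro h
          apply hnk
          have := s.T_sym h
          convert this using 1
          ring
        obtain ⟨q, hq0, hq⟩ := chain (F := T) (b := w0) (c := 2 * g)
          (by omega) (by
            intro z hz
            exact hmin z hz) (by
            intro x hx hxw
            have hx1 := hmin x hx
            have h4 : |x - 2 * g| ∈ P := by
              rcases s.step2 h2 hx with h | h
              · exact h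
              · exact absurd (h ▸ hx) hnM
            have h5 : 2 * g ≤ x := by
              by_contra hcon
              rw [abs_of_neg (by omega)] at h4
              exact s.small (z := -(x - 2 * g)) (by omega) (by
                have : (k + 1) * g = k * g + g := by ring
                have : 1 * g ≤ k * g := mul_le_mul_of_nonneg_right hk hg0.le
                omega) h4
            rw [abs_of_nonneg (by omega)] at h4
            rcases s.mem_iff.1 h4 with h6 | h6
            · exfalso
              rw [mem_ap] at h6
              obtain ⟨i, hi0, hi1, hi⟩ := h6
              have h7 : g * i ≤ g * (k - 1) := mul_le_mul_of_nonneg_left hi1 hg0.le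
              have h8 : g * (k - 1) + 2 * g = (k + 1) * g := by ring
              omega
            · exact h6) ⟨w0, hw0⟩
        have hcard : (T.card : ℤ) = q + 1 := by
          have h5 := card_ap (b := w0) (c := 2 * g) (q := q) (by omega) (by omega)
          rw [← hq] at h5
          exact h5
        have h4 : w0 + 2 * g * q ∈ T := by
          rw [hq, mem_ap]; exact ⟨q, hq0, le_rfl, rfl⟩
        have h5 := s.T_sym h4
        have h6 := hmin _ h5
        have h7 := s.T_sym hw0
        rw [hq, mem_ap] at h7
        obtain ⟨i, hi0, hi1, hi⟩ := h7
        have h8 : 2 * g * i ≤ 2 * g * q := mul_le_mul_of_nonneg_left hi1 (by omega)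
        have hδ : δ = (2 * N + 1) * g := by
          have hkq : k = N - q - 1 := by omega
          have : δ = g + 2 * w0 + 2 * g * q := by omega
          rw [this, hw0k, hkq]; ring
        have hg1 : g < 2 := by
          by_contra hcon
          have : (2 * N + 1) * 2 ≤ (2 * N + 1) * g :=
            mul_le_mul_of_nonneg_left (by omega) (by omega)
          omega
        have : g = 1 := by omega
        rw [this] at hδ
        omega

end Beta

end Pool.Agent.Helper59.QC
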