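import Pool.Agent.Helper59.QueensBeta

set_option autoImplicit false

namespace Pool.Agent.Helper59.QC

open Finset

namespace Beta

variable {N δ g k : ℤ} {P T : Finset ℤ}

/-- When `2g` is not empty, `k = 2`. -/
theorem k_eq_two (s : Beta N δ P g k T) (h1 : 2 * g ∉ P) (h2 : δ - 2 * g ∉ P) : k = 2 := by
  have hg0 := s.g0
  have h2g := s.beta_2g s.hβ
  have hk := s.hk
  have a1 : g ∈ ap 0 g (k - 1) := by
    apply s.hKz' g (by omega) (by omega)
    unfold G
    have e1 : χ P g = 1 := (χ_eq_one' (by omega)).2 s.hβ
    have e2 : χ P (g + g - δ) = 0 := by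
      rw [← χ_neg, χ_eq_zero' (by omega)]
      convert h2 using 1
      ring_nf
    omega
  rw [mem_ap] at a1
  obtain ⟨i, hi0, hi1, hi⟩ := a1
  have hi' : i = 1 := by
    have : g * i = g * 1 := by omega
    exact mul_left_cancel₀ hg0.ne' this
  by_contra hcon
  have h3 := s.mulK (i := 2) (by omega) (by omega)
  have h4 := s.KP h3
  apply h1
  rw [mul_comm]; exact h4

end Beta

/-- Data of the case `beta2` : `2g` is not an empty line. -/
structure Beta2 (N δ : ℤ) (P : Finset ℤ) (g : ℤ) (T : Finset ℤ) (h : ℤ) : Prop
    extends Beta N δ P g 2 T where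
  n1 : 2 * g ∉ P
  hT : h ∈ T
  hmin : ∀ x ∈ T, h ≤ x
  h5 : 5 ≤ N

namespace Beta2

variable {N δ g h : ℤ} {P T : Finset ℤ}

theorem hmax (s : Beta2 N δ P g T h) {x : ℤ} (hx : x ∈ T) : x ≤ δ - g - h := by
  have := s.hmin _ (s.T_sym hx)
  omega

theorem gh (s : Beta2 N δ P g T h) : g < h := by
  have h1 := s.T_ge s.hT
  rcases h1.lt_or_eq with h2 | h2
  · exact h2
  · exfalso
    apply s.TK s.hT
    rw [← h2]
    have := s.mulK (i := 1) (by omega) (by omega)
    simpa using this

theorem h_ne (s : Beta2 N δ P g T h) : h ≠ 2 * g := by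
  intro h1
  exact s.n1 (h1 ▸ s.TP s.hT)

theorem mem_P (s : Beta2 N δ P g T h) {z : ℤ} : z ∈ P ↔ z = 0 ∨ z = g ∨ z ∈ T := by
  rw [s.mem_iff, mem_ap]
  constructor
  · rintro (⟨i, h0, h1, h2⟩ | h0)
    · have : i = 0 ∨ i = 1 := by omega
      rcases this with rfl | rfl
      · left; rw [h2]; ring
      · right; left; rw [h2]; ring
    · exact Or.inr (Or.inr h0)
  · rintro (h0 | h0 | h0)
    · left; exact ⟨0, le_rfl, by norm_num, by rw [h0]; ring⟩
    · left; exact ⟨1, by norm_num, by norm_num, by rw [h0]; ring⟩
    · exact Or.inr h0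

theorem hM (s : Beta2 N δ P g T h) : h ≤ δ - g - h := s.hmin _ (s.T_sym s.hT)

/-- elements of `P` are at most `δ - g - h` -/
theorem P_le (s : Beta2 N δ P g T h) {z : ℤ} (hz : z ∈ P) : z ≤ δ - g - h := by
  have h1 := s.hM
  have h2 := s.gh
  have h3 := s.g0
  rcases s.mem_P.1 hz with h0 | h0 | h0
  · omega
  · omega
  · exact s.hmax h0

theorem χ_small (s : Beta2 N δ P g T h) {z : ℤ} (h0 : 0 < z) (h1 : z < h) (hzg : z ≠ g) :
    χ P z = 0 := by
  rw [χ_eq_zero' h0.le]
  intro hz
  rcases s.mem_P.1 hz with h2 | h2 | h2
  · omega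
  · exact hzg h2
  · have := s.hmin z h2
    omega

theorem χ_large (s : Beta2 N δ P g T h) {z : ℤ} (h0 : δ - g - h < z) : χ P z = 0 := by
  have h1 := s.hM
  have h2 := s.gh
  have h3 := s.g0
  rw [χ_eq_zero' (by omega)]
  intro hz
  have := s.P_le hz
  omega

theorem monoh (s : Beta2 N δ P g T h) {z : ℤ} (h0 : -h ≤ z) (h1 : z ≤ δ - h) :
    G P δ h (z + h) ≤ G P δ h z := by
  have hM := s.hM
  have h2 := s.gh
  have h3 := s.g0
  apply s.toSym.G_mono (by omega) (by omega) _ h0 h1
  have a1 : χ P h = 1 := (χ_eq_one' (by omega)).2 (s.TP s.hT)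
  have a2 : χ P (δ - h) = 0 := s.χ_large (by omega)
  omega

theorem monoh' (s : Beta2 N δ P g T h) {z : ℤ} (h0 : 0 ≤ z) (h1 : z ≤ δ - h) :
    G P δ h z ≤ G P δ h (z - h) := by
  have h2 := s.gh
  have h3 := s.g0
  have h4 := s.monoh (z := z - h) (by omega) (by omega)
  rwa [sub_add_cancel] at h4

/-- `{G h = 1}` consists of multiples of `h`. -/
theorem L1 (s : Beta2 N δ P g T h) : ∀ z, 0 ≤ z → (z ≤ δ - h → G P δ h z = 1 → h ∣ z) := by
  have hg0 := s.g0
  have hgh := s.gh
  have hM := s.hM
  apply strong
  intro z hz ih hz1 hG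
  have h1 := s.monoh' hz hz1
  have h2 := G_le_one P δ h (z - h)
  by_cases hzh : z < h
  · by_cases hz0 : z = 0
    · subst hz0; exact dvd_zero h
    · exfalso
      have h3 : χ P (h - z) = 1 := by
        rw [χ_sub_comm]
        apply χ_ne_zero
        intro h4
        have h5 := χ_nonneg P (z - h + h - δ)
        unfold G at h1 h2 hG
        omega
      have h4 : h - z = g := by
        by_contra hcon
        have := s.χ_small (z := h - z) (by omega) (by omega) hcon
        omega
      have h5 : χ P z = 0 := by
        apply s.χ_small (by omega) hzh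
        intro h6
        exact s.h_ne (by omega)
      have h6 := χ_nonneg P (z + h - δ)
      unfold G at hG
      omega
  · have h3 := ih (z - h) (by omega) (by omega) (by omega) (by omega)
    have h4 := dvd_add h3 (dvd_refl h)
    rwa [sub_add_cancel] at h4

theorem L2 (s : Beta2 N δ P g T h) : ∃ q, 0 ≤ q ∧
    ∀ z, (0 ≤ z ∧ z ≤ δ - h ∧ G P δ h z = 1) ↔ ∃ i, 0 ≤ i ∧ i ≤ q ∧ z = h * i := by
  have hg0 := s.g0
  have hgh := s.gh
  have hM := s.hM
  obtain ⟨q, hq0, hq⟩ := chain (F := (Finset.Icc 0 (δ - h)).filter (fun z => G P δ h z = 1))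
    (b := 0) (c := h) (by omega) (by
      intro z hz
      rw [mem_filter, mem_Icc] at hz
      exact hz.1.1) (by
      intro z hz hz0
      rw [mem_filter, mem_Icc] at hz ⊢
      have h3 := s.L1 z hz.1.1 hz.1.2 hz.2
      have h4 : h ≤ z := Int.le_of_dvd (by omega) h3
      have h5 := s.monoh' hz.1.1 hz.1.2
      have h6 := G_le_one P δ h (z - h)
      exact ⟨by omega, by omega⟩) (by
      refine ⟨0, ?_⟩
      rw [mem_filter, mem_Icc]
      refine ⟨by omega, ?_⟩
      unfold G
      have h3 := s.toSym.χ_zero
      have h4 : χ P (0 + h - δ) = 0 := by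
        rw [← χ_neg]
        exact s.χ_large (by omega)
      omega)
  refine ⟨q, hq0, ?_⟩
  intro z
  have h1 : z ∈ (Finset.Icc 0 (δ - h)).filter (fun z => G P δ h z = 1) ↔ z ∈ ap 0 h q := by
    rw [hq]
  rw [mem_filter, mem_Icc, mem_ap] at h1
  simp only [zero_add] at h1
  rw [← h1, and_assoc]

theorem up (s : Beta2 N δ P g T h) {q : ℤ}
    (hq : ∀ z, (0 ≤ z ∧ z ≤ δ - h ∧ G P δ h z = 1) ↔ ∃ i, 0 ≤ i ∧ i ≤ q ∧ z = h * i)
    {w : ℤ} (hw : w ∈ T) :
    w + (h - g) ∈ T ∨ w = δ - g - h ∨ (∃ i, 1 ≤ i ∧ i ≤ q ∧ w = h * i ∧ w + (h - g) ∉ T) := by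
  have hg0 := s.g0
  have hgh := s.gh
  have hM := s.hM
  have hwM := s.hmax hw
  have hwm := s.hmin w hw
  have χw : χ P w = 1 := (χ_eq_one' (by omega)).2 (s.TP hw)
  by_cases hG : G P δ h w = 1
  · right; right
    obtain ⟨i, hi0, hi1, hi⟩ := (hq w).1 ⟨by omega, by omega, hG⟩
    refine ⟨i, ?_, hi1, hi, ?_⟩
    · by_contra hcon
      have : i = 0 := by omega
      rw [this] at hi
      omega
    · intro hcon
      have h1 := s.T_sym hcon
      have h2 : χ P (w + h - δ) = 1 := by
        rw [← χ_neg, χ_eq_one' (by omega)]
        have := s.TP h1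
        convert this using 1
        ring
      unfold G at hG
      omega
  · have h1 : χ P (w + h - δ) = 1 := by
      apply χ_ne_zero
      intro h2
      apply hG
      unfold G
      omega
    rw [← χ_neg, χ_eq_one' (by omega)] at h1
    rcases s.mem_P.1 h1 with h2 | h2 | h2
    · exfalso; omega
    · right; left; omega
    · left
      have := s.T_sym h2
      convert this using 1
      ring

theorem down (s : Beta2 N δ P g T h) {q : ℤ}
    (hq : ∀ z, (0 ≤ z ∧ z ≤ δ - h ∧ G P δ h z = 1) ↔ ∃ i, 0 ≤ i ∧ i ≤ q ∧ z = h * i)
    {w : ℤ} (hw : w ∈ T) :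
    w - (h - g) ∈ T ∨ w = h ∨
      (∃ i, 1 ≤ i ∧ i ≤ q ∧ w = δ - g - h * i ∧ w - (h - g) ∉ T) := by
  rcases s.up hq (s.T_sym hw) with h1 | h1 | ⟨i, h1, h2, h3, h4⟩
  · left
    have := s.T_sym h1
    convert this using 1
    ring
  · right; left; omega
  · right; right
    refine ⟨i, h1, h2, by omega, ?_⟩
    intro h5
    apply h4
    have := s.T_sym h5
    convert this using 1
    ring

/-- Classification in the case `beta2`. -/
theorem main (s : Beta2 N δ P g T h) :
    δ - 3 * (N - 1) = 2 ∧ P = ap 0 3 (N - 2) ∪ {2} := by
  classical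
  have hg0 := s.g0
  have hgh := s.gh
  have hM := s.hM
  have hne := s.h_ne
  have h5 := s.h5
  have hcT := s.cardT
  have hlo := s.lo
  have hhi := s.hi
  obtain ⟨δ2, hδ2⟩ := s.ev
  obtain ⟨q, hq0, hq⟩ := s.L2
  have hcard3 : 3 ≤ T.card := by omega
  by_cases hq2 : 2 ≤ q
  · -- r ≥ 3
    have a1 := (hq (h * 2)).2 ⟨2, by omega, hq2, rfl⟩
    have a2 : χ P (h * 2) = 1 := by
      have b1 := a1.2.2
      unfold G at b1
      have b2 := χ_le_one P (h * 2)
      have b3 := χ_nonneg P (h * 2 + h - δ)
      omega
    rw [χ_eq_one' (by omega)] at a2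
    have a3 : h * 2 ∈ T := by
      rcases s.mem_P.1 a2 with b | b | b
      · omega
      · omega
      · exact b
    have a4 : ∃ i, 1 ≤ i ∧ i ≤ q ∧ h * 2 = δ - g - h * i := by
      rcases s.down hq a3 with b | b | ⟨i, b1, b2, b3, _⟩
      · exfalso
        apply s.T_add s.hT
        have : h + g = h * 2 - (h - g) := by ring
        rw [this]; exact b
      · omega
      · exact ⟨i, b1, b2, b3⟩
    obtain ⟨i, hi1, hiq, hi⟩ := a4
    have hM' : δ - g - h = h * (i + 1) := by rw [mul_add]; omega
    have hdiv : ∀ w, 0 ≤ w → (w ∈ T → h ∣ w) := by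
      apply strong
      intro w hw0 ih hw
      rcases s.down hq hw with b | b | ⟨j, b1, b2, b3, _⟩
      · exfalso
        have c1 := s.hmin _ b
        obtain ⟨j, hj⟩ := ih (w - (h - g)) (by omega) (by omega) b
        have c2 : 1 ≤ j := by
          by_contra hcon
          have : h * j ≤ h * 0 := mul_le_mul_of_nonneg_left (by omega) (by omega)
          omega
        have c3 : q < j := by
          by_contra hcon
          have d1 := (hq (h * j)).2 ⟨j, by omega, by omega, rfl⟩
          have d2 := d1.2.2
          -- then w ∉ T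
          have d3 := s.T_sym hw
          have d4 : χ P (h * j + h - δ) = 1 := by
            have := s.hmax hw
            rw [← χ_neg, χ_eq_one' (by omega)]
            have := s.TP d3
            convert this using 1
            omega
          have d5 := χ_le_one P (h * j)
          unfold G at d2
          omega
        have c4 : h * (i + 1) ≤ h * j := mul_le_mul_of_nonneg_left (by omega) (by omega)
        have c5 := s.hmax hw
        omega
      · rw [b]
      · refine ⟨i + 2 - j, ?_⟩
        rw [mul_sub, mul_add]
        omega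
    have hTq : ∀ j, 1 ≤ j → j ≤ q → h * j ∈ T := by
      intro j hj1 hj2
      have d1 := (hq (h * j)).2 ⟨j, by omega, by omega, rfl⟩
      have d2 := d1.2.2
      have d3 : χ P (h * j) = 1 := by
        unfold G at d2
        have b2 := χ_le_one P (h * j)
        have b3 := χ_nonneg P (h * j + h - δ)
        omega
      have d4 : h * 1 ≤ h * j := mul_le_mul_of_nonneg_left hj1 (by omega)
      rw [χ_eq_one' (by omega)] at d3
      rcases s.mem_P.1 d3 with b | b | b
      · omega
      · omega
      · exact b
    have hTeq : T = ap h h i := by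
      ext w
      rw [mem_ap]
      constructor
      · intro hw
        have c1 := s.hmin w hw
        have c2 := s.hmax hw
        obtain ⟨j, hj⟩ := hdiv w (by omega) hw
        refine ⟨j - 1, ?_, ?_, by rw [hj]; ring⟩
        · by_contra hcon
          have : h * j ≤ h * 0 := mul_le_mul_of_nonneg_left (by omega) (by omega)
          omega
        · have : h * j ≤ h * (i + 1) := by omega
          have := le_of_mul_le_mul_left this (by omega)
          omega
      · rintro ⟨j, hj0, hj1, hj⟩
        have e1 : w = h * (j + 1) := by rw [hj]; ring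
        by_cases hjq : j + 1 ≤ q
        · rw [e1]; exact hTq _ (by omega) hjq
        · have e2 : j = i := by omega
          have e3 : w = δ - g - h * 1 := by rw [e1, e2]; omega
          rw [e3]
          apply s.T_sym
          exact hTq 1 le_rfl (by omega)
    have hcard : (T.card : ℤ) = i + 1 := by
      rw [hTeq, card_ap (by omega) (by omega)]
    have hiN : i = N - 3 := by omega
    have hδ : δ = (N - 1) * h + g := by
      have : δ = h * 2 + h * i + g := by omega
      rw [this, hiN]; ring
    have hh5 : h < 5 := by
      by_contra hcon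
      have : (N - 1) * 5 ≤ (N - 1) * h := mul_le_mul_of_nonneg_left (by omega) (by omega)
      omega
    have hh3 : h = 3 ∧ g = 2 := by
      have hcases : h = 2 ∨ h = 3 ∨ h = 4 := by omega
      rcases hcases with h1 | h1 | h1 <;> subst h1 <;> omega
    obtain ⟨hh3, hg2⟩ := hh3
    subst hh3 hg2
    refine ⟨by omega, ?_⟩
    ext z
    rw [s.mem_P, hTeq, hiN, mem_union, mem_singleton, mem_ap, mem_ap]
    constructor
    · rintro (b | b | ⟨j, b1, b2, b3⟩)
      · exact Or.inl ⟨0, le_rfl, by omega, by rw [b]; ring⟩
      · exact Or.inr b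
      · exact Or.inl ⟨j + 1, by omega, by omega, by rw [b3]; ring⟩
    · rintro (⟨j, b1, b2, b3⟩ | b)
      · by_cases hj : j = 0
        · left; rw [b3, hj]; ring
        · right; right
          exact ⟨j - 1, by omega, by omega, by rw [b3]; ring⟩
      · exact Or.inr (Or.inl b)
  · by_cases hq1 : q = 1
    · -- r = 2
      exfalso
      have hne2 : (T.erase h).Nonempty := by
        rw [← card_pos, card_erase_of_mem s.hT]; omega
      obtain ⟨w, hw, hwmin⟩ := Finset.exists_min_image (T.erase h) id hne2
      simp only [id] at hwmin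
      rw [mem_erase] at hw
      have hwM : w ≠ δ - g - h := by
        intro hcon
        have hsub : T ⊆ {h, w} := by
          intro x hx
          rw [mem_insert, mem_singleton]
          by_cases hxh : x = h
          · exact Or.inl hxh
          · right
            have := hwmin x (mem_erase.2 ⟨hxh, hx⟩)
            have := s.hmax hx
            omega
        have := card_le_card hsub
        have := card_le_two (a := h) (b := w)
        omega
      have hhc : h + (h - g) ∉ T := by
        have d1 := (hq (h * 1)).2 ⟨1, by omega, by omega, rfl⟩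
        have d2 := d1.2.2
        rw [mul_one] at d2
        intro hcon
        have d3 := s.T_sym hcon
        have d4 : χ P (h + h - δ) = 1 := by
          have := s.hmax hcon
          rw [← χ_neg, χ_eq_one' (by omega)]
          have := s.TP d3
          convert this using 1
          ring
        have d5 := χ_le_one P h
        unfold G at d2
        omega
      rcases s.down hq hw.2 with b | b | ⟨j, b1, b2, b3, _⟩
      · have c1 : w - (h - g) = h := by
          by_contra hcon
          have := hwmin _ (mem_erase.2 ⟨hcon, b⟩)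
          omega
        apply hhc
        have : h + (h - g) = w := by omega
        rw [this]; exact hw.2
      · exact hw.1 b
      · have : j = 1 := by omega
        rw [this] at b3
        omega
    · -- r = 1
      exfalso
      have hq0' : q = 0 := by omega
      obtain ⟨q', hq0'', hTeq⟩ := chain (F := T) (b := h) (c := h - g) (by omega) s.hmin (by
        intro w hw hwh
        rcases s.down hq hw with b | b | ⟨j, b1, b2, b3, _⟩
        · exact b
        · exact absurd b hwh
        · omega) ⟨h, s.hT⟩
      have hcard : (T.card : ℤ) = q' + 1 := by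
        rw [hTeq, card_ap (by omega) (by omega)]
      have hqN : q' = N - 3 := by omega
      have hMT : h + (h - g) * q' ∈ T := by
        rw [hTeq, mem_ap]; exact ⟨q', hq0'', le_rfl, rfl⟩
      have hMM : δ - g - h = h + (h - g) * q' := by
        have c1 := s.hmax hMT
        have c2 := s.T_sym s.hT
        rw [hTeq, mem_ap] at c2
        obtain ⟨j, c3, c4, c5⟩ := c2
        have c6 : (h - g) * j ≤ (h - g) * q' := mul_le_mul_of_nonneg_left c4 (by omega)
        omega
      obtain ⟨c, hc⟩ : ∃ c, c = h - g := ⟨_, rfl⟩
      have hc0 : 0 < c := by omega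
      have hhg : h = g + c := by omega
      have hcg : c ≠ g := by omega
      have hδ : δ = 3 * g + (N - 1) * c := by
        rw [← hc, hqN, hhg] at hMM
        have : δ = g + (g + c) + (g + c) + c * (N - 3) := by omega
        rw [this]; ring
      have hP : ∀ z, z ∈ P ↔ z = 0 ∨ ∃ j, 0 ≤ j ∧ j ≤ N - 2 ∧ z = g + c * j := by
        intro z
        rw [s.mem_P, hTeq, mem_ap, ← hc, hqN, hhg]
        constructor
        · rintro (b | b | ⟨j, b1, b2, b3⟩)
          · exact Or.inl b
          · exact Or.inr ⟨0, le_rfl, by omega, by rw [b]; ring⟩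
          · exact Or.inr ⟨j + 1, by omega, by omega, by rw [b3]; ring⟩
        · rintro (b | ⟨j, b1, b2, b3⟩)
          · exact Or.inl b
          · by_cases hj : j = 0
            · right; left; rw [b3, hj]; ring
            · right; right
              exact ⟨j - 1, by omega, by omega, by rw [b3]; ring⟩
      have hcP : c ∉ P := by
        rw [hP]
        rintro (b | ⟨j, b1, b2, b3⟩)
        · omega
        · by_cases hj : j = 0
          · rw [hj] at b3; omega
          · have : c * 1 ≤ c * j := mul_le_mul_of_nonneg_left (by omega) (by omega)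
            omega
      -- the numerical contradiction for c = 2g
      have fin : c ≠ 2 * g := by
        intro hcc
        have hδ' : δ = (2 * N + 1) * g := by rw [hδ, hcc]; ring
        have hg1 : g < 2 := by
          by_contra hcon
          have : (2 * N + 1) * 2 ≤ (2 * N + 1) * g :=
            mul_le_mul_of_nonneg_left (by omega) (by omega)
          omega
        have : g = 1 := by omega
        rw [this] at hδ'
        omega
      -- consecutive pairs
      have pair : ∀ j, 0 ≤ j → j + 1 ≤ N - 2 → |(2 * j + 2 - N) * c - g| ∈ P := by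
        intro j hj0 hj1
        have m1 : g + c * j ∈ P := (hP _).2 (Or.inr ⟨j, hj0, by omega, rfl⟩)
        have m2 : g + c * (j + 1) ∈ P := (hP _).2 (Or.inr ⟨j + 1, by omega, hj1, rfl⟩)
        have r1 := s.rng _ m1
        have r2 := s.rng _ m2
        rcases s.cov (g + c * j) (g + c * (j + 1)) r1.1 r1.2.le r2.1 r2.2.le (Or.inl m1)
          (Or.inl m2) with b | b
        · exfalso
          apply hcP
          have e : g + c * j - (g + c * (j + 1)) = -c := by ring
          rw [e, abs_neg, abs_of_pos hc0] at b
          exact b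
        · have e : g + c * j + (g + c * (j + 1)) - δ = (2 * j + 2 - N) * c - g := by
            rw [hδ]; ring
          rw [e] at b
          exact b
      rcases Int.even_or_odd' N with ⟨t, ht | ht⟩
      · -- N even
        have b := pair t (by omega) (by omega)
        have e : (2 * t + 2 - N) * c - g = 2 * c - g := by
          have : 2 * t + 2 - N = 2 := by omega
          rw [this]
        rw [e] at b
        by_cases h2c : 2 * c - g = 0
        · -- g = 2c
          have hg : g = 2 * c := by omega
          have m1 : g + c * 3 ∈ P := (hP _).2 (Or.inr ⟨3, by omega, by omega, rfl⟩)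
          have m2 : δ - (g + c * 3) ∈ P := by
            rw [hP]
            right
            refine ⟨N - 2, by omega, le_rfl, ?_⟩
            rw [hδ, hg]; ring
          exact s.disj _ m1 m2
        · by_cases h2c' : 0 < 2 * c - g
          · rw [abs_of_pos h2c', hP] at b
            rcases b with b | ⟨j, b1, b2, b3⟩
            · omega
            · have hj : j = 0 ∨ j = 1 ∨ 2 ≤ j := by omega
              rcases hj with hj | hj | hj
              · rw [hj] at b3; omega
              · rw [hj] at b3; exact fin (by omega)
              · have : c * 2 ≤ c * j := mul_le_mul_of_nonneg_left hj (by omega)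
                omega
          · rw [abs_of_neg (by omega)] at b
            exact s.small (z := -(2 * c - g)) (by omega) (by omega) b
      · -- N odd
        have b := pair t (by omega) (by omega)
        have e : (2 * t + 2 - N) * c - g = c - g := by
          have : 2 * t + 2 - N = 1 := by omega
          rw [this]; ring
        rw [e] at b
        by_cases h2c' : 0 < c - g
        · rw [abs_of_pos h2c', hP] at b
          rcases b with b | ⟨j, b1, b2, b3⟩
          · omega
          · by_cases hj : j = 0
            · rw [hj] at b3; exact fin (by omega)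
            · have : c * 1 ≤ c * j := mul_le_mul_of_nonneg_left (by omega) (by omega)
              omega
        · rw [abs_of_neg (by omega)] at b
          exact s.small (z := -(c - g)) (by omega) (by omega) b

end Beta2

end Pool.Agent.Helper59.QC
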