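import Mathlib

/-!
Classification of the symmetric systems attached to `(n-1)/2` queens dominating the `n × n` board.
-/

set_option autoImplicit false

namespace Pool.Agent.Helper59.QC

open Finset

/-- Sum of `f` over the integer interval `[a,b]`. -/
noncomputable def S (f : ℤ → ℤ) (a b : ℤ) : ℤ := ∑ x ∈ Finset.Icc a b, f x

theorem S_split {f : ℤ → ℤ} {a b c : ℤ} (h1 : a ≤ b + 1) (h2 : b ≤ c) :
    S f a c = S f a b + S f (b + 1) c := by
  unfold S
  rw [← Finset.sum_union]
  · congr 1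
    ext x
    simp only [Finset.mem_Icc, Finset.mem_union]
    omega
  · rw [Finset.disjoint_left]
    intro x hx hy
    simp only [Finset.mem_Icc] at hx hy
    omega

theorem S_shift (f : ℤ → ℤ) (a b c : ℤ) : S (fun x => f (x + c)) a b = S f (a + c) (b + c) := by
  unfold S
  refine Finset.sum_bij (fun x _ => x + c) ?_ ?_ ?_ ?_
  · intro x hx
    simp only [Finset.mem_Icc] at hx ⊢
    omega
  · intro x _ y _ h
    omega
  · intro y hy
    simp only [Finset.mem_Icc] at hy
    exact ⟨y - c, by simp only [Finset.mem_Icc]; omega, by ring⟩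
  · intro x _
    rfl

theorem S_refl (f : ℤ → ℤ) (a b c : ℤ) : S (fun x => f (c - x)) a b = S f (c - b) (c - a) := by
  unfold S
  refine Finset.sum_bij (fun x _ => c - x) ?_ ?_ ?_ ?_
  · intro x hx
    simp only [Finset.mem_Icc] at hx ⊢
    omega
  · intro x _ y _ h
    omega
  · intro y hy
    simp only [Finset.mem_Icc] at hy
    exact ⟨c - y, by simp only [Finset.mem_Icc]; omega, by ring⟩
  · intro x _
    rfl

/-- Strong induction on nonnegative integers. -/
theorem strong {p : ℤ → Prop} (h : ∀ z, 0 ≤ z → (∀ y, 0 ≤ y → y < z → p y) → p z) :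
    ∀ z, 0 ≤ z → p z := by
  have key : ∀ n : ℕ, p (n : ℤ) := by
    intro n
    induction n using Nat.strong_induction_on with
    | _ n ih =>
      apply h _ (by positivity)
      intro y hy hyn
      obtain ⟨m, rfl⟩ := Int.eq_ofNat_of_zero_le hy
      exact ih m (by exact_mod_cast hyn)
  intro z hz
  obtain ⟨n, rfl⟩ := Int.eq_ofNat_of_zero_le hz
  exact key n

/-- The symmetric system: `P` is the set of nonnegative occupied diagonals. -/
structure Sym (N : ℤ) (δ : ℤ) (P : Finset ℤ) : Prop where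
  δpos : 0 < δ
  P0 : (0 : ℤ) ∈ P
  rng : ∀ p ∈ P, 0 ≤ p ∧ p < δ
  card : (P.card : ℤ) = N
  disj : ∀ p ∈ P, δ - p ∉ P
  cov : ∀ u w, 0 ≤ u → u ≤ δ → 0 ≤ w → w ≤ δ → (u ∈ P ∨ δ - u ∈ P) → (w ∈ P ∨ δ - w ∈ P) →
    (|u - w| ∈ P ∨ |u + w - δ| ∈ P)
  ev : Even δ
  lo : 6 * N - 3 ≤ 2 * δ
  hi : δ ≤ 4 * N - 2

/-- indicator of the occupied diagonals -/
noncomputable def χ (P : Finset ℤ) (z : ℤ) : ℤ := if |z| ∈ P then 1 else 0

/-- the difference function attached to an empty line `u` -/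
noncomputable def G (P : Finset ℤ) (δ u z : ℤ) : ℤ := χ P z - χ P (z + u - δ)

theorem χ_nonneg (P : Finset ℤ) (z : ℤ) : 0 ≤ χ P z := by
  unfold χ; split_ifs <;> simp

theorem χ_le_one (P : Finset ℤ) (z : ℤ) : χ P z ≤ 1 := by
  unfold χ; split_ifs <;> simp

theorem χ_neg (P : Finset ℤ) (z : ℤ) : χ P (-z) = χ P z := by
  unfold χ; rw [abs_neg]

theorem χ_sub_comm (P : Finset ℤ) (y z : ℤ) : χ P (y - z) = χ P (z - y) := by
  rw [← χ_neg]; congr 1; ring

theorem χ_eq_one {P : Finset ℤ} {z : ℤ} : χ P z = 1 ↔ |z| ∈ P := by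
  unfold χ; split_ifs with h <;> simp [h]

theorem χ_eq_zero {P : Finset ℤ} {z : ℤ} : χ P z = 0 ↔ |z| ∉ P := by
  unfold χ; split_ifs with h <;> simp [h]

theorem χ_eq_one' {P : Finset ℤ} {z : ℤ} (hz : 0 ≤ z) : χ P z = 1 ↔ z ∈ P := by
  rw [χ_eq_one, abs_of_nonneg hz]

theorem χ_eq_zero' {P : Finset ℤ} {z : ℤ} (hz : 0 ≤ z) : χ P z = 0 ↔ z ∉ P := by
  rw [χ_eq_zero, abs_of_nonneg hz]

theorem χ_ne_one {P : Finset ℤ} {z : ℤ} (h : χ P z ≠ 1) : χ P z = 0 := by
  have h1 := χ_nonneg P z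
  have h2 := χ_le_one P z
  omega

theorem χ_ne_zero {P : Finset ℤ} {z : ℤ} (h : χ P z ≠ 0) : χ P z = 1 := by
  have h1 := χ_nonneg P z
  have h2 := χ_le_one P z
  omega

theorem G_anti (P : Finset ℤ) (δ u z : ℤ) : G P δ u (δ - u - z) = - G P δ u z := by
  unfold G
  have h1 : χ P (δ - u - z) = χ P (z + u - δ) := by
    rw [← χ_neg]; congr 1; ring
  have h2 : χ P (δ - u - z + u - δ) = χ P z := by
    rw [← χ_neg]; congr 1; ring
  rw [h1, h2]; ring

theorem G_le_one (P : Finset ℤ) (δ u z : ℤ) : G P δ u z ≤ 1 := by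
  unfold G
  have h1 := χ_le_one P z
  have h2 := χ_nonneg P (z + u - δ)
  omega

theorem G_ge (P : Finset ℤ) (δ u z : ℤ) : -1 ≤ G P δ u z := by
  unfold G
  have h1 := χ_nonneg P z
  have h2 := χ_le_one P (z + u - δ)
  omega

namespace Sym

variable {N δ : ℤ} {P : Finset ℤ}

theorem χ_big (s : Sym N δ P) {z : ℤ} (hz : δ ≤ z) : χ P z = 0 := by
  rw [χ_eq_zero]
  intro h
  have := (s.rng _ h).2
  have := le_abs_self z
  omega

theorem χ_big' (s : Sym N δ P) {z : ℤ} (hz : z ≤ -δ) : χ P z = 0 := by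
  rw [← χ_neg]
  exact s.χ_big (by omega)

theorem χ_zero (s : Sym N δ P) : χ P 0 = 1 := by
  rw [χ_eq_one' le_rfl]; exact s.P0

theorem χ_add_le (s : Sym N δ P) {z : ℤ} (h0 : 0 ≤ z) (h1 : z ≤ δ) : χ P z + χ P (δ - z) ≤ 1 := by
  by_contra hcon
  have a := χ_le_one P z
  have b := χ_le_one P (δ - z)
  have c := χ_nonneg P z
  have d := χ_nonneg P (δ - z)
  have e : χ P z = 1 := by omega
  have f : χ P (δ - z) = 1 := by omega
  rw [χ_eq_one' h0] at e
  rw [χ_eq_one' (by omega)] at f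
  exact s.disj z e f

theorem G_mono (s : Sym N δ P) {u z : ℤ} (hu0 : 0 ≤ u) (hu1 : u ≤ δ) (hu : χ P u + χ P (δ - u) = 1)
    (hz0 : -u ≤ z) (hz1 : z ≤ δ - u) : G P δ u (z + u) ≤ G P δ u z := by
  unfold G
  have hw := s.χ_add_le (z := z + u) (by omega) (by omega)
  have e1 : χ P (z + u - δ) = χ P (δ - (z + u)) := χ_sub_comm _ _ _
  have n1 := χ_nonneg P z
  have n2 := χ_nonneg P (z + u + u - δ)
  have n3 := χ_nonneg P (z + u)
  have n4 := χ_nonneg P (δ - (z + u))
  rw [e1]
  by_cases h : χ P (z + u) + χ P (δ - (z + u)) = 1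
  · have hu' : u ∈ P ∨ δ - u ∈ P := by
      by_contra hcon
      push Not at hcon
      rw [← χ_eq_zero' hu0, ← χ_eq_zero' (by omega)] at hcon
      omega
    have hw' : z + u ∈ P ∨ δ - (z + u) ∈ P := by
      by_contra hcon
      push Not at hcon
      rw [← χ_eq_zero' (by omega), ← χ_eq_zero' (by omega)] at hcon
      omega
    rcases s.cov u (z + u) hu0 hu1 (by omega) (by omega) hu' hw' with h1 | h1
    · rw [← χ_eq_one] at h1
      have e2 : χ P (u - (z + u)) = χ P z := by
        rw [← χ_neg]; congr 1; ring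
      omega
    · rw [← χ_eq_one] at h1
      have e2 : χ P (u + (z + u) - δ) = χ P (z + u + u - δ) := by
        congr 1; ring
      omega
  · omega


end Sym

/-- Arithmetic progression `b, b+c, ..., b+c*q`. -/
noncomputable def ap (b c q : ℤ) : Finset ℤ := (Finset.Icc 0 q).image (fun i => b + c * i)

theorem mem_ap {b c q z : ℤ} : z ∈ ap b c q ↔ ∃ i, 0 ≤ i ∧ i ≤ q ∧ z = b + c * i := by
  unfold ap
  simp only [mem_image, mem_Icc]
  constructor
  · rintro ⟨i, ⟨h1, h2⟩, rfl⟩
    exact ⟨i, h1, h2, rfl⟩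
  · rintro ⟨i, h1, h2, rfl⟩
    exact ⟨i, ⟨h1, h2⟩, rfl⟩

theorem ap_inj {b c : ℤ} (hc : 0 < c) : Function.Injective (fun i : ℤ => b + c * i) := by
  intro x y h
  simp only [add_right_inj] at h
  exact mul_left_cancel₀ hc.ne' h

theorem card_ap {b c q : ℤ} (hc : 0 < c) (hq : -1 ≤ q) : ((ap b c q).card : ℤ) = q + 1 := by
  unfold ap
  rw [card_image_of_injective _ (ap_inj hc), Int.card_Icc]
  omega

/-- A finite set of integers closed under subtracting `c` above `b` is an arithmetic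
progression. -/
theorem chain {F : Finset ℤ} {b c : ℤ} (hc : 0 < c) (hb : ∀ z ∈ F, b ≤ z)
    (hstep : ∀ z ∈ F, z ≠ b → z - c ∈ F) (hne : F.Nonempty) :
    ∃ q, 0 ≤ q ∧ F = ap b c q := by
  have key : ∀ y, 0 ≤ y → b + y ∈ F → ∃ i, 0 ≤ i ∧ y = c * i ∧
      ∀ j, 0 ≤ j → j ≤ i → b + c * j ∈ F := by
    apply strong
    intro z hz ih hzF
    by_cases h0 : z = 0
    · subst h0
      refine ⟨0, le_rfl, by ring, ?_⟩
      intro j h1 h2
      have : j = 0 := by omega
      subst this
      simpa using hzF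
    · have h1 := hstep _ hzF (by omega)
      have h2 := hb _ h1
      have e : b + z - c = b + (z - c) := by ring
      rw [e] at h1
      obtain ⟨i, hi0, hi1, hi2⟩ := ih (z - c) (by omega) (by omega) h1
      refine ⟨i + 1, by omega, by rw [mul_add]; omega, ?_⟩
      intro j hj0 hj1
      by_cases hj : j = i + 1
      · subst hj
        have : b + c * (i + 1) = b + z := by rw [mul_add]; omega
        rw [this]; exact hzF
      · exact hi2 j hj0 (by omega)
  obtain ⟨M, hM, hMmax⟩ := Finset.exists_max_image F id hne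
  obtain ⟨q, hq0, hq1, hq2⟩ := key (M - b) (by have := hb _ hM; omega)
    (by rw [add_sub_cancel]; exact hM)
  refine ⟨q, hq0, ?_⟩
  ext z
  rw [mem_ap]
  constructor
  · intro hz
    obtain ⟨i, hi0, hi1, hi2⟩ := key (z - b) (by have := hb _ hz; omega)
      (by rw [add_sub_cancel]; exact hz)
    refine ⟨i, hi0, ?_, by omega⟩
    have h1 := hMmax z hz
    simp only [id] at h1
    have h2 : c * i ≤ c * q := by omega
    exact le_of_mul_le_mul_left h2 hc
  · rintro ⟨i, hi0, hi1, rfl⟩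
    exact hq2 i hi0 hi1

/-- The system together with its least nonzero empty line. -/
structure SymG (N δ : ℤ) (P : Finset ℤ) (g : ℤ) : Prop extends Sym N δ P where
  g0 : 0 < g
  g1 : g < δ
  gR : χ P g + χ P (δ - g) = 1
  gmin : ∀ k, 0 < k → k < g → χ P k = 0 ∧ χ P (δ - k) = 0

theorem exists_g {N δ : ℤ} {P : Finset ℤ} (s : Sym N δ P) (hN : 2 ≤ N) :
    ∃ g, SymG N δ P g := by
  classical
  have hc := s.card
  have h1 : 1 < P.card := by omega
  obtain ⟨x, hx, hx0⟩ := Finset.exists_mem_ne h1 0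
  have hx' := s.rng x hx
  set F : Finset ℤ := (Finset.Icc 1 (δ - 1)).filter (fun k => k ∈ P ∨ δ - k ∈ P) with hF
  have hne : F.Nonempty := by
    refine ⟨x, ?_⟩
    rw [hF, mem_filter, mem_Icc]
    exact ⟨by omega, Or.inl hx⟩
  obtain ⟨g, hg, hgmin⟩ := Finset.exists_min_image F id hne
  rw [hF, mem_filter, mem_Icc] at hg
  refine ⟨g, ⟨s, by omega, by omega, ?_, ?_⟩⟩
  · have a := s.χ_add_le (z := g) (by omega) (by omega)
    have n1 := χ_nonneg P g
    have n2 := χ_nonneg P (δ - g)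
    rcases hg.2 with h | h
    · rw [← χ_eq_one' (by omega)] at h
      omega
    · rw [← χ_eq_one' (by omega)] at h
      omega
  · intro k hk0 hk1
    rw [χ_eq_zero' (by omega), χ_eq_zero' (by omega)]
    constructor
    · intro h
      have : k ∈ F := by
        rw [hF, mem_filter, mem_Icc]
        exact ⟨by omega, Or.inl h⟩
      have := hgmin k this
      simp only [id] at this
      omega
    · intro h
      have : k ∈ F := by
        rw [hF, mem_filter, mem_Icc]
        exact ⟨by omega, Or.inr h⟩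
      have := hgmin k this
      simp only [id] at this
      omega

namespace SymG

variable {N δ g : ℤ} {P : Finset ℤ}

/-- positive elements of `P` are at least `g` -/
theorem ge_g (s : SymG N δ P g) {z : ℤ} (hz : z ∈ P) (h0 : z ≠ 0) : g ≤ z := by
  by_contra hcon
  have h1 := s.rng z hz
  have h2 := (s.gmin z (by omega) (by omega)).1
  rw [χ_eq_zero' (by omega)] at h2
  exact h2 hz

/-- elements of `P` are at most `δ - g` -/
theorem le_g (s : SymG N δ P g) {z : ℤ} (hz : z ∈ P) : z ≤ δ - g := by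
  by_contra hcon
  have h1 := s.rng z hz
  have h2 := (s.gmin (δ - z) (by omega) (by omega)).2
  rw [χ_eq_zero' (by omega)] at h2
  apply h2
  rw [sub_sub_cancel]
  exact hz

theorem mono (s : SymG N δ P g) {z : ℤ} (hz0 : -g ≤ z) (hz1 : z ≤ δ - g) :
    G P δ g (z + g) ≤ G P δ g z :=
  s.toSym.G_mono s.g0.le s.g1.le s.gR hz0 hz1

theorem mono' (s : SymG N δ P g) {z : ℤ} (hz0 : 0 ≤ z) (hz1 : z ≤ δ - g) :
    G P δ g z ≤ G P δ g (z - g) := by
  have := s.g0
  have h := s.mono (z := z - g) (by omega) (by omega)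
  rwa [sub_add_cancel] at h

/-- if `G g z = 1` then `g ∣ z` -/
theorem G_dvd (s : SymG N δ P g) : ∀ z, 0 ≤ z → (z ≤ δ - g → G P δ g z = 1 → g ∣ z) := by
  have hg0 := s.g0
  have hg1 := s.g1
  apply strong
  intro z hz ih hz1 hG
  have h1 := s.mono' hz hz1
  have h2 := G_le_one P δ g (z - g)
  by_cases hzg : z < g
  · by_cases hz0 : z = 0
    · subst hz0; exact dvd_zero g
    · exfalso
      have h3 : χ P (z - g) = 0 := by
        rw [χ_sub_comm]
        exact (s.gmin (g - z) (by omega) (by omega)).1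
      have h4 := χ_nonneg P (z - g + g - δ)
      unfold G at h1 h2 hG
      omega
  · have h3 := ih (z - g) (by omega) (by omega) (by omega) (by omega)
    have h4 := dvd_add h3 (dvd_refl g)
    rwa [sub_add_cancel] at h4

end SymG

end Pool.Agent.Helper59.QC
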