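import Pool.Agent.Helper59.QueensAlpha
import Pool.Agent.Helper59.QueensBeta1
import Pool.Agent.Helper59.QueensBeta2

set_option autoImplicit false

namespace Pool.Agent.Helper59.QC

open Finset

theorem sum_closed (c δ : ℤ) (n : ℕ) :
    ∑ i ∈ Finset.Icc (0 : ℤ) (n : ℤ), (6 * (0 + c * i) ^ 2 - 4 * δ * (0 + c * i) + δ ^ 2)
      = c ^ 2 * n * (n + 1) * (2 * n + 1) - 2 * δ * c * n * (n + 1) + (n + 1) * δ ^ 2 := by
  induction n with
  | zero => simp
  | succ n ih =>
    have h := S_split (f := fun i => 6 * (0 + c * i) ^ 2 - 4 * δ * (0 + c * i) + δ ^ 2)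
      (a := 0) (b := (n : ℤ)) (c := ((n + 1 : ℕ) : ℤ)) (by positivity) (by push_cast; omega)
    unfold S at h
    rw [h, ih]
    have e : Finset.Icc ((n : ℤ) + 1) ((n + 1 : ℕ) : ℤ) = {(n : ℤ) + 1} := by
      push_cast; exact Finset.Icc_self _
    rw [e, sum_singleton]
    push_cast
    ring

theorem sum_ap {c : ℤ} (hc : 0 < c) (δ : ℤ) {q : ℤ} (hq : 0 ≤ q) :
    ∑ p ∈ ap 0 c q, (6 * p ^ 2 - 4 * δ * p + δ ^ 2)
      = c ^ 2 * q * (q + 1) * (2 * q + 1) - 2 * δ * c * q * (q + 1) + (q + 1) * δ ^ 2 := by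
  obtain ⟨n, rfl⟩ := Int.eq_ofNat_of_zero_le hq
  rw [← sum_closed c δ n]
  unfold ap
  rw [sum_image]
  intro x _ y _ h
  exact ap_inj hc h

/-- Numerical kill of the progressions with difference `1` and `3`. -/
theorem kill_num {N δ c : ℤ} (hN : 4 ≤ N) (h1 : 3 * N - 1 ≤ δ) (h2 : δ ≤ 4 * N - 2)
    (hc : c = 1 ∨ c = 3) :
    3 * (c ^ 2 * (N - 1) * N * (2 * N - 1) - 2 * δ * c * (N - 1) * N + N * δ ^ 2)
      < 2 * (2 * N - 1) * (2 * N) * (4 * N - 1) := by
  have key : 3 * (c ^ 2 * (N - 1) * (2 * N - 1) - 2 * δ * c * (N - 1) + δ ^ 2)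
      < 4 * (2 * N - 1) * (4 * N - 1) := by
    have h3 : 0 ≤ (δ - (3 * N - 1)) * ((4 * N - 2) - δ) :=
      mul_nonneg (by omega) (by omega)
    rcases hc with rfl | rfl
    · nlinarith [mul_nonneg (show (0 : ℤ) ≤ (4 * N - 2) - δ by omega)
        (show (0 : ℤ) ≤ 5 * N - 1 by omega)]
    · nlinarith [mul_nonneg (show (0 : ℤ) ≤ (4 * N - 2) - δ by omega)
        (show (0 : ℤ) ≤ N + 3 by omega)]
  have e1 : 3 * (c ^ 2 * (N - 1) * N * (2 * N - 1) - 2 * δ * c * (N - 1) * N + N * δ ^ 2)
      = N * (3 * (c ^ 2 * (N - 1) * (2 * N - 1) - 2 * δ * c * (N - 1) + δ ^ 2)) := by ring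
  have e2 : 2 * (2 * N - 1) * (2 * N) * (4 * N - 1) = N * (4 * (2 * N - 1) * (4 * N - 1)) := by
    ring
  rw [e1, e2]
  exact mul_lt_mul_of_pos_left key (by omega)

theorem killB {N δ c : ℤ} {P : Finset ℤ} (hN : 4 ≤ N) (h1 : 3 * N - 1 ≤ δ) (h2 : δ ≤ 4 * N - 2)
    (hc : c = 1 ∨ c = 3) (hP : P = ap 0 c (N - 1))
    (SQ : 2 * (2 * N - 1) * (2 * N) * (4 * N - 1)
      ≤ 3 * ∑ p ∈ P, (6 * p ^ 2 - 4 * δ * p + δ ^ 2)) : False := by
  rw [hP, sum_ap (by omega) δ (by omega)] at SQ
  have := kill_num hN h1 h2 hc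
  have e : c ^ 2 * (N - 1) * (N - 1 + 1) * (2 * (N - 1) + 1) - 2 * δ * c * (N - 1) * (N - 1 + 1)
      + (N - 1 + 1) * δ ^ 2
      = c ^ 2 * (N - 1) * N * (2 * N - 1) - 2 * δ * c * (N - 1) * N + N * δ ^ 2 := by ring
  rw [e] at SQ
  omega

theorem killC3 {N δ : ℤ} {P : Finset ℤ} (hN : 4 ≤ N) (h1 : 3 * N - 1 ≤ δ)
    (h2 : δ ≤ 4 * N - 2) (hn : δ - (N - 1) * 3 ∉ ap 0 3 (N - 2))
    (hP : P = ap 0 3 (N - 2) ∪ {δ - (N - 1) * 3})
    (SQ : 2 * (2 * N - 1) * (2 * N) * (4 * N - 1)
      ≤ 3 * ∑ p ∈ P, (6 * p ^ 2 - 4 * δ * p + δ ^ 2)) : False := by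
  rw [hP, sum_union (by rw [disjoint_singleton_right]; exact hn), sum_singleton,
    sum_ap (by omega) δ (by omega)] at SQ
  have h3 := kill_num hN h1 h2 (Or.inr rfl : (3 : ℤ) = 1 ∨ (3 : ℤ) = 3)
  have h4 : 0 ≤ δ * (6 * (N - 1) - δ) := mul_nonneg (by omega) (by omega)
  nlinarith

theorem Sym.even_case {N δ : ℤ} {P : Finset ℤ} (s : Sym N δ P) (h : ∀ p ∈ P, Even p) :
    δ = 4 * N - 2 := by
  classical
  have hcard := s.card
  have hhi := s.hi
  have hδ := s.δpos
  obtain ⟨e, he⟩ := s.ev
  have hinj : Function.Injective (fun p : ℤ => δ - p) := by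
    intro x y hxy
    simp only at hxy
    omega
  have hdisj : Disjoint P (P.image (fun p => δ - p)) := by
    rw [disjoint_left]
    intro x hx hx'
    rw [mem_image] at hx'
    obtain ⟨y, hy, rfl⟩ := hx'
    exact s.disj y hy hx
  have hc : (P ∪ P.image (fun p => δ - p)).card = P.card + P.card := by
    rw [card_union_of_disjoint hdisj, card_image_of_injective _ hinj]
  have hsub : P ∪ P.image (fun p => δ - p) ⊆ ap 0 2 e := by
    intro x hx
    rw [mem_ap]
    rw [mem_union, mem_image] at hx
    rcases hx with hx | ⟨y, hy, rfl⟩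
    · obtain ⟨r, hr⟩ := h x hx
      have := s.rng x hx
      exact ⟨r, by omega, by omega, by omega⟩
    · obtain ⟨r, hr⟩ := h y hy
      have := s.rng y hy
      exact ⟨e - r, by omega, by omega, by omega⟩
  have h1 := card_le_card hsub
  have h2 := card_ap (b := 0) (c := 2) (q := e) (by norm_num) (by omega)
  omega

theorem Sym.concl {N δ : ℤ} {P : Finset ℤ} (s : Sym N δ P) (h : ∀ p ∈ P, Even p) :
    δ = 4 * N - 2 ∧ ∀ u, 0 ≤ u → u ≤ δ → (u ∈ P ∨ δ - u ∈ P) → Even u := by
  refine ⟨s.even_case h, ?_⟩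
  intro u _ _ hu
  rcases hu with hu | hu
  · exact h u hu
  · obtain ⟨a, ha⟩ := h _ hu
    obtain ⟨e, he⟩ := s.ev
    exact ⟨e - a, by omega⟩

/-- The main classification for `N ≥ 4`. -/
theorem Sym.main {N δ : ℤ} {P : Finset ℤ} (s : Sym N δ P) (hN : 4 ≤ N)
    (SQ : 2 * (2 * N - 1) * (2 * N) * (4 * N - 1)
      ≤ 3 * ∑ p ∈ P, (6 * p ^ 2 - 4 * δ * p + δ ^ 2))
    (SQe : δ = 4 * N - 2 → 3 * ∑ p ∈ P, (6 * p ^ 2 - 4 * δ * p + δ ^ 2)
      = 2 * (2 * N - 1) * (2 * N) * (4 * N - 1))
    (E1s : P ≠ Finset.Icc 0 (N - 2) ∪ {δ - N + 1}) :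
    δ = 4 * N - 2 ∧ ∀ u, 0 ≤ u → u ≤ δ → (u ∈ P ∨ δ - u ∈ P) → Even u := by
  classical
  have hlo := s.lo
  have hhi := s.hi
  have hev := s.ev
  obtain ⟨e, he⟩ := s.ev
  have hlo' : 3 * N - 1 ≤ δ := by omega
  obtain ⟨g, sg⟩ := exists_g s (by omega)
  have hg0 := sg.g0
  by_cases hβ : g ∈ P
  · -- case beta
    obtain ⟨k, T, sb⟩ := sg.beta hβ
    by_cases h2 : 2 * g ∈ P ∨ δ - 2 * g ∈ P
    · rcases sb.beta1 hN h2 with hB | ⟨hn, hC⟩ | hA
      · -- progression
        have hmem : (N - 1) * g ∈ P := by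
          rw [hB, mem_ap]
          exact ⟨N - 1, by omega, le_rfl, by ring⟩
        have hlt := sg.beta_lt hβ hmem
        have hg3 : g < 4 := by
          by_contra hcon
          have : N * 4 ≤ N * g := mul_le_mul_of_nonneg_left (by omega) (by omega)
          have e2 : (N - 1) * g = N * g - g := by ring
          omega
        have hcases : g = 1 ∨ g = 2 ∨ g = 3 := by omega
        rcases hcases with h | h | h
        · exfalso; subst h
          exact killB hN hlo' hhi (Or.inl rfl) hB SQ
        · subst h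
          apply s.concl
          intro p hp
          rw [hB, mem_ap] at hp
          obtain ⟨i, _, _, hi⟩ := hp
          exact ⟨i, by omega⟩
        · exfalso; subst h
          exact killB hN hlo' hhi (Or.inr rfl) hB SQ
      · -- reflected progression
        have hmem : δ - (N - 1) * g ∈ P := by
          rw [hC, mem_union, mem_singleton]
          exact Or.inr rfl
        have hne0 : δ - (N - 1) * g ≠ 0 := by
          intro h
          apply hn
          rw [h, mem_ap]
          exact ⟨0, le_rfl, by omega, by ring⟩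
        have hneg : δ - (N - 1) * g ≠ g := by
          intro h
          apply hn
          rw [h, mem_ap]
          exact ⟨1, by omega, by omega, by ring⟩
        have hge := sg.ge_g hmem hne0
        have hg3 : g < 4 := by
          by_contra hcon
          have : N * 4 ≤ N * g := mul_le_mul_of_nonneg_left (by omega) (by omega)
          have e2 : (N - 1) * g = N * g - g := by ring
          omega
        have hcases : g = 1 ∨ g = 2 ∨ g = 3 := by omega
        rcases hcases with h | h | h
        · exfalso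
          apply E1s
          rw [hC, h]
          ext z
          rw [mem_union, mem_union, mem_singleton, mem_singleton, mem_ap, mem_Icc]
          constructor
          · rintro (⟨i, h1, h3, h4⟩ | h4)
            · left; omega
            · right; omega
          · rintro (h4 | h4)
            · left; exact ⟨z, h4.1, h4.2, by ring⟩
            · right; omega
        · subst h
          apply s.concl
          intro p hp
          rw [hC, mem_union, mem_singleton, mem_ap] at hp
          rcases hp with ⟨i, _, _, hi⟩ | hp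
          · exact ⟨i, by omega⟩
          · exact ⟨e - (N - 1), by omega⟩
        · exfalso; subst h
          exact killC3 hN hlo' hhi hn hC SQ
      · -- even case
        exact s.concl hA.2
    · push Not at h2
      exfalso
      have hk := sb.k_eq_two h2.1 h2.2
      subst hk
      have hcT := sb.cardT
      by_cases h5 : 5 ≤ N
      · -- N ≥ 5
        have hTne : T.Nonempty := by rw [← card_pos]; omega
        obtain ⟨h, hh, hmin⟩ := Finset.exists_min_image T id hTne
        have s2 : Beta2 N δ P g T h := ⟨sb, h2.1, hh, hmin, h5⟩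
        obtain ⟨m1, m2⟩ := s2.main
        have e3 : δ - (N - 1) * 3 = 2 := by omega
        refine killC3 hN hlo' hhi ?_ ?_ SQ
        · rw [e3, mem_ap]
          rintro ⟨i, h1, h3, h4⟩
          omega
        · rw [e3]; exact m2
      · -- N = 4
        have hN4 : N = 4 := by omega
        subst hN4
        have hT2 : T.card = 2 := by omega
        obtain ⟨x, y, hxy, hTxy⟩ := card_eq_two.1 hT2
        have hx : x ∈ T := by rw [hTxy]; simp
        have hy : y ∈ T := by rw [hTxy]; simp
        have hsum : δ - g - x = y := by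
          have h3 := sb.T_sym hx
          have h4 := sb.T_sym hy
          rw [hTxy, mem_insert, mem_singleton] at h3 h4
          rcases h3 with h3 | h3
          · rcases h4 with h4 | h4
            · exfalso; apply hxy; omega
            · exfalso; apply hxy; omega
          · exact h3
        have hgT : ∀ z ∈ T, g < z := by
          intro z hz
          have h3 := sb.T_ge hz
          rcases h3.lt_or_eq with h4 | h4
          · exact h4
          · exfalso
            apply sb.TK hz
            rw [← h4]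
            have := sb.mulK (i := 1) (by omega) (by omega)
            simpa using this
        have hxg := hgT x hx
        have hyg := hgT y hy
        have hPeq : P = {0, g, x, y} := by
          ext z
          rw [sb.mem_iff, hTxy, mem_ap]
          simp only [mem_insert, mem_singleton]
          constructor
          · rintro (⟨i, h3, h4, h6⟩ | h3 | h3)
            · have : i = 0 ∨ i = 1 := by omega
              rcases this with rfl | rfl
              · left; omega
              · right; left; omega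
            · right; right; left; exact h3
            · right; right; right; exact h3
          · rintro (h3 | h3 | h3 | h3)
            · left; exact ⟨0, by omega, by omega, by omega⟩
            · left; exact ⟨1, by omega, by omega, by omega⟩
            · right; left; exact h3
            · right; right; exact h3
        have hsumP : ∑ p ∈ P, (6 * p ^ 2 - 4 * δ * p + δ ^ 2)
            = 6 * (g ^ 2 + x ^ 2 + y ^ 2) := by
          rw [hPeq, sum_insert (by simp only [mem_insert, mem_singleton]; omega),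
            sum_insert (by simp only [mem_insert, mem_singleton]; omega),
            sum_insert (by simp only [mem_singleton]; omega), sum_singleton]
          have : δ = g + x + y := by omega
          rw [this]; ring
        rw [hsumP] at SQ SQe
        have hδ : δ = 12 ∨ δ = 14 := by omega
        rcases hδ with hδ | hδ
        · have hyy : y = 12 - g - x := by omega
          have hg4 : g < 4 := by omega
          have : x < 12 := by omega
          subst hyy
          interval_cases g <;> interval_cases x <;> omega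
        · have h7 := SQe (by omega)
          omega
  · -- case alpha
    obtain ⟨h, hgh, hPh, hδ⟩ := sg.alpha (by omega) hβ
    have hh : h < 5 := by
      by_contra hcon
      have : (N - 1) * 5 ≤ (N - 1) * h := mul_le_mul_of_nonneg_left (by omega) (by omega)
      omega
    have hcases : h = 2 ∨ h = 3 ∨ h = 4 := by omega
    rcases hcases with h1 | h1 | h1
    · exfalso; subst h1; omega
    · exfalso; subst h1
      exact killB hN hlo' hhi (Or.inr rfl) hPh SQ
    · subst h1
      apply s.concl
      intro p hp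
      rw [hPh, mem_ap] at hp
      obtain ⟨i, _, _, hi⟩ := hp
      exact ⟨2 * i, by omega⟩

/-- **Classification.** Symmetric systems come only from `N = 1`, `N = 3` or have all empty lines
even. -/
theorem classify (N : ℕ) (δ : ℤ) (P : Finset ℤ) (P0 : (0 : ℤ) ∈ P)
    (Prange : ∀ u ∈ P, 0 ≤ u ∧ u < δ) (card : P.card = N)
    (disj : ∀ u ∈ P, δ - u ∉ P)
    (cov : ∀ u w, 0 ≤ u → u ≤ δ → 0 ≤ w → w ≤ δ → (u ∈ P ∨ δ - u ∈ P) →
      (w ∈ P ∨ δ - w ∈ P) → (|u - w| ∈ P ∨ |u + w - δ| ∈ P))
    (ev : Even δ) (lo : 6 * (N : ℤ) - 3 ≤ 2 * δ) (hi : δ ≤ 4 * (N : ℤ) - 2)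
    (SQ : 2 * (2 * (N : ℤ) - 1) * (2 * (N : ℤ)) * (4 * (N : ℤ) - 1)
      ≤ 3 * ∑ p ∈ P, (6 * p ^ 2 - 4 * δ * p + δ ^ 2))
    (SQe : δ = 4 * (N : ℤ) - 2 → 3 * ∑ p ∈ P, (6 * p ^ 2 - 4 * δ * p + δ ^ 2)
      = 2 * (2 * (N : ℤ) - 1) * (2 * (N : ℤ)) * (4 * (N : ℤ) - 1))
    (E1s : P ≠ Finset.Icc 0 ((N : ℤ) - 2) ∪ {δ - (N : ℤ) + 1}) :
    N = 1 ∨ N = 3 ∨ (δ = 4 * (N : ℤ) - 2 ∧
      ∀ u, 0 ≤ u → u ≤ δ → (u ∈ P ∨ δ - u ∈ P) → Even u) := by
  classical
  by_cases h1 : N = 1
  · exact Or.inl h1
  by_cases h3 : N = 3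
  · exact Or.inr (Or.inl h3)
  have hN0 : N ≠ 0 := by
    rintro rfl
    rw [card_eq_zero] at card
    rw [card] at P0
    exact notMem_empty _ P0
  have δpos : 0 < δ := (Prange 0 P0).2
  by_cases h2 : N = 2
  · exfalso
    subst h2
    have hδ : δ = 6 := by
      obtain ⟨e, he⟩ := ev
      push_cast at lo hi
      omega
    obtain ⟨p, hp, hp0⟩ := Finset.exists_mem_ne (show 1 < P.card by omega) 0
    have hPeq : P = {0, p} := by
      symm
      apply eq_of_subset_of_card_le
      · intro z hz
        rw [mem_insert, mem_singleton] at hz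
        rcases hz with rfl | rfl
        · exact P0
        · exact hp
      · rw [card, card_insert_of_notMem (by simpa using hp0.symm)]; simp
    have h4 := SQe (by rw [hδ]; norm_num)
    rw [hPeq, sum_insert (by simpa using hp0.symm), sum_singleton, hδ] at h4
    have h5 := Prange p hp
    rw [hδ] at h5
    obtain ⟨h6, h7⟩ := h5
    interval_cases p <;> norm_num at h4
  · right; right
    have s : Sym (N : ℤ) δ P := ⟨δpos, P0, Prange, by exact_mod_cast card, disj, cov, ev, lo, hi⟩
    exact s.main (by omega) SQ SQe E1s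

end Pool.Agent.Helper59.QC
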