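import Pool.Agent.Helper59.RG.P.All
import Pool.Agent.Results.MP_4d33fe_pr.SquareLowerBound

/-!
# MP_4d33fe_pr: the order of magnitude of the metric dimension for `n ^ (5 / 14) ≤ r ≤ √n / 4`
-/

set_option autoImplicit false

namespace Pool.Agent.Helper59.RGOrder

open MeasureTheory Filter Topology Pool.Agent.Helper42.MD

theorem measurableSet_geo (n : ℕ) (r : ℝ) (P : SimpleGraph (Fin n) → Prop) :
    MeasurableSet {X : Fin n → Pl | P (geo r X)} := by
  have h1 : ∀ G : SimpleGraph (Fin n), MeasurableSet {X : Fin n → Pl | geo r X = G} := by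
    intro G
    have he : {X : Fin n → Pl | geo r X = G} =
        ⋂ i : Fin n, ⋂ j : Fin n, {X : Fin n → Pl | (i ≠ j ∧ dist (X i) (X j) ≤ r) ↔ G.Adj i j} := by
      ext X
      simp only [Set.mem_iInter, Set.mem_setOf_eq]
      constructor
      · intro h i j
        rw [← h]
        rfl
      · intro h
        ext i j
        exact h i j
    rw [he]
    refine MeasurableSet.iInter fun i => MeasurableSet.iInter fun j => ?_
    have hd : MeasurableSet {X : Fin n → Pl | dist (X i) (X j) ≤ r} :=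
      measurableSet_le ((measurable_pi_apply i).dist (measurable_pi_apply j)) measurable_const
    by_cases hG : G.Adj i j
    · have : {X : Fin n → Pl | (i ≠ j ∧ dist (X i) (X j) ≤ r) ↔ G.Adj i j} =
          {X : Fin n → Pl | dist (X i) (X j) ≤ r} := by
        ext X
        simp [hG, G.ne_of_adj hG]
      rw [this]
      exact hd
    · by_cases hij : i = j
      · have : {X : Fin n → Pl | (i ≠ j ∧ dist (X i) (X j) ≤ r) ↔ G.Adj i j} = Set.univ := by
          ext X
          simp [hij]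
        rw [this]
        exact MeasurableSet.univ
      · have : {X : Fin n → Pl | (i ≠ j ∧ dist (X i) (X j) ≤ r) ↔ G.Adj i j} =
            {X : Fin n → Pl | dist (X i) (X j) ≤ r}ᶜ := by
          ext X
          simp [hG, hij]
        rw [this]
        exact hd.compl
  have he : {X : Fin n → Pl | P (geo r X)} =
      ⋃ G ∈ {G : SimpleGraph (Fin n) | P G}, {X : Fin n → Pl | geo r X = G} := by
    ext X
    simp
  rw [he]
  exact (Set.toFinite _).measurableSet_biUnion fun G _ => h1 G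

/-- For every radius `n^(5/14) ≤ r ≤ √n / 4` the metric dimension of the random geometric graph in
the square `[0, √n]²` is equal to `n^(1/3) * r^(2/3)` up to a factor which is a power of `log n`,
with probability tending to one. -/
theorem main (r : ℕ → ℝ)
    (hr : ∀ᶠ n : ℕ in atTop, (n : ℝ) ^ (5 / 14 : ℝ) ≤ r n ∧ r n ≤ Real.sqrt n / 4) :
    Tendsto (fun n : ℕ => law n {X |
      (n : ℝ) ^ (1 / 3 : ℝ) * r n ^ (2 / 3 : ℝ) / (10 ^ 7 * Real.log n) ≤
        metricDim (geo (r n) X) ∧
      (metricDim (geo (r n) X) : ℝ) ≤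
        Real.log n ^ 72 * ((n : ℝ) ^ (1 / 3 : ℝ) * r n ^ (2 / 3 : ℝ))}) atTop (𝓝 1) := by
  have hr1 : ∀ᶠ n : ℕ in atTop, 1 ≤ r n ∧ r n ≤ Real.sqrt n / 4 := by
    filter_upwards [hr, eventually_ge_atTop 1] with n hn hn1
    refine ⟨le_trans ?_ hn.1, hn.2⟩
    exact Real.one_le_rpow (by exact_mod_cast hn1) (by norm_num)
  have hL := Pool.Agent.Results.MP_4d33fe_pr.SquareLowerBound.result r hr1
  have hU := Pool.Agent.Helper59.RG.main r hr1
  have hprob : ∀ n : ℕ, 1 ≤ n → law n Set.univ = 1 := by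
    intro n hn
    exact Pool.Agent.Helper59.RG.Mainx.law_univ Pool.Agent.Helper59.RG.pf_F5
      Pool.Agent.Helper59.RG.pf_P15 n hn
  have hmax : ∀ᶠ n : ℕ in atTop, Pool.Agent.Helper59.RG.XX n (r n) =
      (n : ℝ) ^ (1 / 3 : ℝ) * r n ^ (2 / 3 : ℝ) := by
    filter_upwards [hr, eventually_ge_atTop 1] with n hn hn1
    have hn0 : (0 : ℝ) < n := by exact_mod_cast hn1
    have hr0 : 0 < r n := lt_of_lt_of_le (Real.rpow_pos_of_pos hn0 _) hn.1
    unfold Pool.Agent.Helper59.RG.XX
    rw [max_eq_left]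
    have h1 : (n : ℝ) ^ (2 / 3 : ℝ) ≤ r n ^ (28 / 15 : ℝ) := by
      have := Real.rpow_le_rpow (by positivity) hn.1 (z := (28 / 15 : ℝ)) (by norm_num)
      rw [← Real.rpow_mul hn0.le] at this
      norm_num at this
      norm_num
      exact this
    calc (n : ℝ) * r n ^ (-(6 / 5) : ℝ)
        = (n : ℝ) ^ (1 / 3 : ℝ) * (n : ℝ) ^ (2 / 3 : ℝ) * r n ^ (-(6 / 5) : ℝ) := by
          rw [← Real.rpow_add hn0]
          norm_num
      _ ≤ (n : ℝ) ^ (1 / 3 : ℝ) * r n ^ (28 / 15 : ℝ) * r n ^ (-(6 / 5) : ℝ) := by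
          gcongr
      _ = (n : ℝ) ^ (1 / 3 : ℝ) * r n ^ (2 / 3 : ℝ) := by
          rw [mul_assoc, ← Real.rpow_add hr0]
          norm_num
  -- combination
  have hlim : Tendsto (fun n : ℕ =>
      (law n {X | (n : ℝ) ^ (1 / 3 : ℝ) * r n ^ (2 / 3 : ℝ) / (10 ^ 7 * Real.log n) ≤
        metricDim (geo (r n) X)} + law n {X | (metricDim (geo (r n) X) : ℝ) ≤
          Real.log n ^ 72 * Pool.Agent.Helper59.RG.XX n (r n)}) - 1) atTop (𝓝 1) := by
    have h := ENNReal.Tendsto.sub (hL.add hU) (tendsto_const_nhds (x := (1 : ENNReal)))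
      (Or.inr ENNReal.one_ne_top)
    have e : (1 : ENNReal) + 1 - 1 = 1 := ENNReal.add_sub_cancel_right ENNReal.one_ne_top
    rw [e] at h
    exact h
  refine tendsto_of_tendsto_of_tendsto_of_le_of_le' hlim tendsto_const_nhds ?_ ?_
  · filter_upwards [hmax, eventually_ge_atTop 1] with n hn hn1
    rw [tsub_le_iff_right]
    set A := {X : Fin n → Pl | (n : ℝ) ^ (1 / 3 : ℝ) * r n ^ (2 / 3 : ℝ) /
      (10 ^ 7 * Real.log n) ≤ metricDim (geo (r n) X)} with hA
    set B := {X : Fin n → Pl | (metricDim (geo (r n) X) : ℝ) ≤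
          Real.log n ^ 72 * Pool.Agent.Helper59.RG.XX n (r n)} with hB
    have hmA : MeasurableSet A := measurableSet_geo n (r n) fun G =>
      (n : ℝ) ^ (1 / 3 : ℝ) * r n ^ (2 / 3 : ℝ) / (10 ^ 7 * Real.log n) ≤ metricDim G
    have h1 : law n A + law n B = law n (A ∪ B) + law n (A ∩ B) := by
      rw [← measure_union_add_inter' hmA B]
    rw [h1, add_comm]
    have h2 : law n (A ∪ B) ≤ 1 := (measure_mono (Set.subset_univ _)).trans (hprob n hn1).le
    refine add_le_add (measure_mono ?_) h2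
    intro X hX
    refine ⟨hX.1, ?_⟩
    have := hX.2
    rw [hB, hn] at this
    exact this
  · filter_upwards [eventually_ge_atTop 1] with n hn1
    exact (measure_mono (Set.subset_univ _)).trans (hprob n hn1).le

end Pool.Agent.Helper59.RGOrder
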